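import Pool.Agent.H867.FT.Gen5

set_option autoImplicit false

namespace Pool.Agent.H404.FT867CRT

open Pool.Agent.H867.FT

section

variable {P S K : Type} [CommRing P] [IsDomain P] [CommRing S] [IsDomain S] [Algebra P S]
  [Field K] [Algebra S K] [IsFractionRing S K]

/-- functionals separate points -/
theorem sep [Module.Finite P S] [FaithfulSMul P S] {s : S} (hs : s ≠ 0) :
    ∃ l : S →ₗ[P] P, l s ≠ 0 := by
  classical
  have hinj : Function.Injective (algebraMap P S) := FaithfulSMul.algebraMap_injective P S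
  have : FaithfulSMul P (FractionRing S) := by
    rw [faithfulSMul_iff_algebraMap_injective, IsScalarTower.algebraMap_eq P S (FractionRing S)]
    exact (IsFractionRing.injective S (FractionRing S)).comp hinj
  let _ : Algebra (FractionRing P) (FractionRing S) := FractionRing.liftAlgebra P (FractionRing S)
  have : IsScalarTower P (FractionRing P) (FractionRing S) :=
    FractionRing.isScalarTower_liftAlgebra P (FractionRing S)
  have hs' : algebraMap S (FractionRing S) s ≠ 0 := by
    intro h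
    apply hs
    apply IsFractionRing.injective S (FractionRing S)
    rw [h, map_zero]
  obtain ⟨f, hf⟩ : ∃ f : Module.Dual (FractionRing P) (FractionRing S),
      f (algebraMap S (FractionRing S) s) ≠ 0 := by
    by_contra h
    push Not at h
    exact hs' ((Module.forall_dual_apply_eq_zero_iff (FractionRing P) _).1 h)
  obtain ⟨g, hg⟩ : ∃ g : S →ₗ[P] FractionRing P, ∀ x, g x = f (algebraMap S (FractionRing S) x) :=
    ⟨(f.restrictScalars P).comp (IsScalarTower.toAlgHom P S (FractionRing S)).toLinearMap,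
      fun x => rfl⟩
  obtain ⟨t, ht⟩ := (Module.Finite.fg_top : (⊤ : Submodule P S).FG)
  obtain ⟨b, hb⟩ := IsLocalization.exist_integer_multiples_of_finset (nonZeroDivisors P) (t.image g)
  have key : ∀ x : S, ∃ c : P, algebraMap P (FractionRing P) c = (b : P) • g x := by
    intro x
    have hx : x ∈ Submodule.span P (t : Set S) := by rw [ht]; trivial
    induction hx using Submodule.span_induction with
    | mem x hx =>
      obtain ⟨c, hc⟩ := hb (g x) (Finset.mem_image_of_mem g hx)
      exact ⟨c, hc⟩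
    | zero => exact ⟨0, by simp⟩
    | add x y _ _ hx hy =>
      obtain ⟨c, hc⟩ := hx
      obtain ⟨d, hd⟩ := hy
      exact ⟨c + d, by rw [map_add, hc, hd, map_add, smul_add]⟩
    | smul a x _ hx =>
      obtain ⟨c, hc⟩ := hx
      exact ⟨a * c, by rw [map_mul, hc, map_smul, smul_comm, Algebra.smul_def a]⟩
  choose l hl using key
  have hPinj := IsFractionRing.injective P (FractionRing P)
  refine ⟨{ toFun := l, map_add' := fun x y => hPinj ?_, map_smul' := fun a x => hPinj ?_ }, ?_⟩
  · rw [map_add, hl, hl, hl, map_add, smul_add]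
  · rw [RingHom.id_apply, smul_eq_mul, map_mul, hl, hl, map_smul, smul_comm, Algebra.smul_def a]
  · intro h0
    have h1 : l s = 0 := h0
    have h2 := hl s
    rw [h1, map_zero, hg] at h2
    have h3 : (b : P) ≠ 0 := nonZeroDivisors.ne_zero b.2
    rcases smul_eq_zero.1 h2.symm with h4 | h4
    · exact h3 h4
    · exact hf h4

section mu

variable {q : ℕ} {T : P →+ P}

omit [IsDomain P] [IsDomain S] in
theorem mu (hgen : ∀ ψ : P →+ P, IsCartier q ψ → ∃ u : P, ∀ g, ψ g = T (u * g))
    (hzero : ∀ u : P, (∀ g, T (u * g) = 0) → u = 0) (ψ : S →+ P)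
    (hψ : ∀ (g : P) (s : S), ψ (algebraMap P S g ^ q * s) = g * ψ s) :
    ∃ μ : S →ₗ[P] P, ∀ s, ψ s = T (μ s) := by
  have h1 : ∀ s : S, ∃ u : P, ∀ g : P, ψ (algebraMap P S g * s) = T (u * g) := by
    intro s
    obtain ⟨u, hu⟩ := hgen (ψ.comp ((AddMonoidHom.mulRight s).comp
      (algebraMap P S).toAddMonoidHom)) (by
        intro r g
        show ψ (algebraMap P S (r ^ q * g) * s) = r * ψ (algebraMap P S g * s)
        rw [map_mul (algebraMap P S), map_pow (algebraMap P S), mul_assoc, hψ])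
    exact ⟨u, fun g => hu g⟩
  choose m hm using h1
  have huniq : ∀ u u' : P, (∀ g, T (u * g) = T (u' * g)) → u = u' := by
    intro u u' h
    have := hzero (u - u') (fun g => by rw [sub_mul, map_sub, h, sub_self])
    exact sub_eq_zero.1 this
  refine ⟨{ toFun := m, map_add' := fun s t => huniq _ _ (fun g => ?_),
            map_smul' := fun a s => huniq _ _ (fun g => ?_) }, fun s => ?_⟩
  · rw [← hm, mul_add, map_add, hm, hm, add_mul, map_add]
  · rw [← hm, RingHom.id_apply, smul_eq_mul, Algebra.smul_def, ← mul_assoc, ← map_mul, hm]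
    congr 1
    ring
  · have := hm s 1
    rw [map_one, one_mul, mul_one] at this
    exact this

omit [IsDomain P] [IsDomain S] in
theorem mu_uniq (hzero : ∀ u : P, (∀ g, T (u * g) = 0) → u = 0) (μ μ' : S →ₗ[P] P)
    (h : ∀ s, T (μ s) = T (μ' s)) : μ = μ' := by
  ext s
  refine sub_eq_zero.1 (hzero _ fun g => ?_)
  have h1 := h (g • s)
  rw [μ.map_smul, μ'.map_smul, smul_eq_mul, smul_eq_mul] at h1
  rw [sub_mul, map_sub, mul_comm (μ s), h1, mul_comm (μ' s), sub_self]

end mu

variable {C : Submodule S K} (e : C ≃+ (S →ₗ[P] P))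

/-- the relation between `φ` and `β` -/
def Rel (q : ℕ) (T : P →+ P) (φ : S →+ S) (β : K) : Prop :=
  ∀ y : C, ∃ z : C, (z : K) = β * (y : K) ^ q ∧ ∀ s, e y (φ s) = T (e z s)

include e in
omit [IsFractionRing S K] in
theorem exists_ne [Module.Finite P S] [FaithfulSMul P S] : ∃ y : C, y ≠ 0 := by
  obtain ⟨l, hl⟩ := sep (P := P) (one_ne_zero : (1 : S) ≠ 0)
  refine ⟨e.symm l, fun h => hl ?_⟩
  have h1 : l = e 0 := by rw [← h, e.apply_symm_apply]
  rw [h1, map_zero]
  rfl

omit [IsFractionRing S K] in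
theorem sepC [Module.Finite P S] [FaithfulSMul P S] {s s' : S} (h : ∀ y : C, e y s = e y s') :
    s = s' := by
  by_contra hs
  obtain ⟨l, hl⟩ := sep (P := P) (sub_ne_zero.2 hs)
  apply hl
  have h1 := h (e.symm l)
  rw [e.apply_symm_apply] at h1
  rw [map_sub, h1, sub_self]

omit [IsDomain P] [Algebra P S] in
theorem rank1 (y0 : C) (hy0 : y0 ≠ 0) (y : C) : ∃ r r' : S, r ≠ 0 ∧ r • y = r' • y0 := by
  obtain ⟨a, b, hb, hab⟩ := IsFractionRing.div_surjective (A := S) ((y : K) / (y0 : K))
  have hb0 : b ≠ 0 := nonZeroDivisors.ne_zero hb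
  have hbK : algebraMap S K b ≠ 0 := by
    intro h
    apply hb0
    apply IsFractionRing.injective S K
    rw [h, map_zero]
  have hy0K : (y0 : K) ≠ 0 := by
    intro h
    exact hy0 (Subtype.ext h)
  refine ⟨b, a, hb0, Subtype.ext ?_⟩
  rw [Submodule.coe_smul, Submodule.coe_smul, Algebra.smul_def, Algebra.smul_def]
  rw [div_eq_div_iff hbK hy0K] at hab
  rw [hab, mul_comm]

omit [IsDomain P] [Algebra P S] in
/-- semilinear maps of rank one modules -/
theorem semilin (q : ℕ) (st : C → C) (hst : ∀ (r : S) (y : C), st (r • y) = r ^ q • st y) (y0 : C)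
    (hy0 : y0 ≠ 0) (y : C) : (st y : K) = (st y0 : K) / (y0 : K) ^ q * (y : K) ^ q := by
  have hy0K : (y0 : K) ≠ 0 := by
    intro h
    exact hy0 (Subtype.ext h)
  obtain ⟨r, r', hr, h⟩ := rank1 y0 hy0 y
  have h2 : r ^ q • st y = r' ^ q • st y0 := by rw [← hst, ← hst, h]
  have h3 : algebraMap S K r ^ q * (st y : K) = algebraMap S K r' ^ q * (st y0 : K) := by
    have := congrArg (fun z : C => (z : K)) h2
    simp only [Submodule.coe_smul, Algebra.smul_def, map_pow] at this
    exact this
  have h4 : algebraMap S K r * (y : K) = algebraMap S K r' * (y0 : K) := by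
    have := congrArg (fun z : C => (z : K)) h
    simp only [Submodule.coe_smul, Algebra.smul_def] at this
    exact this
  have hrK : algebraMap S K r ≠ 0 := by
    intro h
    apply hr
    apply IsFractionRing.injective S K
    rw [h, map_zero]
  rw [div_mul_eq_mul_div, eq_div_iff (pow_ne_zero _ hy0K)]
  apply mul_left_cancel₀ (pow_ne_zero q hrK)
  calc algebraMap S K r ^ q * ((st y : K) * (y0 : K) ^ q)
      = algebraMap S K r ^ q * (st y : K) * (y0 : K) ^ q := by ring
    _ = algebraMap S K r' ^ q * (st y0 : K) * (y0 : K) ^ q := by rw [h3]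
    _ = (st y0 : K) * (algebraMap S K r' * (y0 : K)) ^ q := by rw [mul_pow]; ring
    _ = (st y0 : K) * (algebraMap S K r * (y : K)) ^ q := by rw [h4]
    _ = algebraMap S K r ^ q * ((st y0 : K) * (y : K) ^ q) := by rw [mul_pow]; ring

section rel

variable {q : ℕ} {T : P →+ P}

theorem exists_beta [Module.Finite P S] [FaithfulSMul P S]
    (he : ∀ (r : S) (y : C) (s : S), e (r • y) s = e y (r * s))
    (hgen : ∀ ψ : P →+ P, IsCartier q ψ → ∃ u : P, ∀ g, ψ g = T (u * g))
    (hzero : ∀ u : P, (∀ g, T (u * g) = 0) → u = 0) (φ : S →+ S) (hφ : IsCartier q φ) :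
    ∃ β : K, Rel e q T φ β := by
  have h1 : ∀ y : C, ∃ z : C, ∀ s, e y (φ s) = T (e z s) := by
    intro y
    obtain ⟨μ, hμ⟩ := mu hgen hzero ((e y).toAddMonoidHom.comp φ) (by
      intro g s
      show e y (φ (algebraMap P S g ^ q * s)) = g * e y (φ s)
      rw [hφ, ← Algebra.smul_def, map_smul, smul_eq_mul])
    exact ⟨e.symm μ, fun s => by rw [e.apply_symm_apply]; exact hμ s⟩
  have huniq : ∀ z z' : C, (∀ s, T (e z s) = T (e z' s)) → z = z' :=
    fun z z' h => e.injective (mu_uniq hzero _ _ h)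
  obtain ⟨y0, hy0⟩ := exists_ne e
  choose st hst using h1
  have hsm : ∀ (r : S) (y : C), st (r • y) = r ^ q • st y := by
    intro r y
    apply huniq
    intro s
    rw [← hst, he, ← hφ, hst, he]
  exact ⟨(st y0 : K) / (y0 : K) ^ q, fun y => ⟨st y, semilin q st hsm y0 hy0 y, hst y⟩⟩

omit [IsFractionRing S K] in
theorem beta_uniq [Module.Finite P S] [FaithfulSMul P S]
    (hzero : ∀ u : P, (∀ g, T (u * g) = 0) → u = 0) (φ : S →+ S) {β β' : K}
    (h : Rel e q T φ β) (h' : Rel e q T φ β') : β = β' := by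
  obtain ⟨y0, hy0⟩ := exists_ne e
  have hy0K : (y0 : K) ≠ 0 := by
    intro h
    exact hy0 (Subtype.ext h)
  obtain ⟨z, hz, hz'⟩ := h y0
  obtain ⟨w, hw, hw'⟩ := h' y0
  have : z = w := e.injective (mu_uniq hzero _ _ fun s => by rw [← hz', ← hw'])
  rw [this, hw] at hz
  exact (mul_right_cancel₀ (pow_ne_zero q hy0K) hz).symm

omit [IsFractionRing S K] in
theorem phi_uniq [Module.Finite P S] [FaithfulSMul P S] (φ φ' : S →+ S) {β : K}
    (h : Rel e q T φ β) (h' : Rel e q T φ' β) : φ = φ' := by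
  ext s
  apply sepC e
  intro y
  obtain ⟨z, hz, hz'⟩ := h y
  obtain ⟨w, hw, hw'⟩ := h' y
  have : z = w := Subtype.ext (by rw [hz, hw])
  rw [hz', hw', this]

omit [IsDomain P] [IsDomain S] [IsFractionRing S K] in
theorem rel_add {φ ψ χ : S →+ S} {β β' : K} (h : Rel e q T φ β) (h' : Rel e q T ψ β')
    (hχ : ∀ s, χ s = φ s + ψ s) : Rel e q T χ (β + β') := by
  intro y
  obtain ⟨z, hz, hz'⟩ := h y
  obtain ⟨w, hw, hw'⟩ := h' y
  refine ⟨z + w, ?_, fun s => ?_⟩
  · rw [Submodule.coe_add, hz, hw, add_mul]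
  · rw [hχ, map_add, hz', hw', map_add, LinearMap.add_apply, map_add]

omit [IsDomain P] [IsDomain S] [IsFractionRing S K] in
theorem rel_smul (he : ∀ (r : S) (y : C) (s : S), e (r • y) s = e y (r * s)) {φ ψ : S →+ S} {β : K}
    (r : S) (h : Rel e q T φ β) (hψ : ∀ s, ψ s = φ (r * s)) :
    Rel e q T ψ (algebraMap S K r * β) := by
  intro y
  obtain ⟨z, hz, hz'⟩ := h y
  refine ⟨r • z, ?_, fun s => ?_⟩
  · rw [Submodule.coe_smul, hz, Algebra.smul_def, mul_assoc]
  · rw [hψ, hz', he]

omit [IsDomain P] [IsDomain S] [IsFractionRing S K] in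
theorem rel_mem {φ : S →+ S} {β : K} (h : Rel e q T φ β) : β ∈ Dq q C := by
  intro y hy
  obtain ⟨z, hz, _⟩ := h ⟨y, hy⟩
  show β * y ^ q ∈ C
  have hz1 : (z : K) = β * y ^ q := hz
  rw [← hz1]
  exact z.2

end rel

omit [IsDomain P] [IsDomain S] [IsFractionRing S K] in
theorem C_fg [IsNoetherianRing P] [Module.Finite P S]
    (he : ∀ (r : S) (y : C) (s : S), e (r • y) s = e y (r * s)) : C.FG := by
  classical
  have h1 : Module.Finite P (S →ₗ[P] P) := by
    obtain ⟨n, f, hf⟩ := Module.Finite.exists_fin' P S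
    refine Module.Finite.of_injective (LinearMap.lcomp P P f) ?_
    intro a b hab
    ext s
    obtain ⟨x, rfl⟩ := hf s
    exact LinearMap.congr_fun hab x
  obtain ⟨t, ht⟩ := h1.fg_top
  refine (Submodule.fg_top C).1 ⟨t.image e.symm, ?_⟩
  rw [eq_top_iff]
  intro y _
  have key : ∀ l ∈ Submodule.span P (t : Set (S →ₗ[P] P)),
      e.symm l ∈ Submodule.span S ((t.image e.symm : Finset C) : Set C) := by
    intro l hl
    induction hl using Submodule.span_induction with
    | mem x hx =>
      apply Submodule.subset_span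
      rw [Finset.mem_coe]
      exact Finset.mem_image_of_mem _ hx
    | zero => rw [map_zero]; exact Submodule.zero_mem _
    | add x y _ _ hx hy => rw [map_add]; exact Submodule.add_mem _ hx hy
    | smul a x _ hx =>
      have h2 : e.symm (a • x) = algebraMap P S a • e.symm x := by
        apply e.injective
        ext s
        rw [he, e.apply_symm_apply, e.apply_symm_apply, ← Algebra.smul_def, map_smul,
          LinearMap.smul_apply]
      rw [h2]
      exact Submodule.smul_mem _ _ hx
  have h3 := key (e y) (by rw [ht]; trivial)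
  rw [e.symm_apply_apply] at h3
  exact h3

theorem exists_phi {p n : ℕ} {T : P →+ P} [Fact p.Prime] [CharP S p] [IsIntegrallyClosed S]
    [IsNoetherianRing P]
    [Module.Finite P S] [FaithfulSMul P S]
    (he : ∀ (r : S) (y : C) (s : S), e (r • y) s = e y (r * s)) (hT : IsCartier (p ^ n) T)
    (β : K) (hβ : β ∈ Dq (p ^ n) C) :
    ∃ φ : S →+ S, IsCartier (p ^ n) φ ∧ Rel e (p ^ n) T φ β := by
  have hK : CharP K p := charP_of_injective_algebraMap (IsFractionRing.injective S K) p
  have hp : p.Prime := Fact.out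
  have hβ' : ∀ y : C, β * (y : K) ^ p ^ n ∈ C := fun y => hβ y y.2
  obtain ⟨z, hz⟩ : ∃ z : C → C, ∀ y, (z y : K) = β * (y : K) ^ p ^ n :=
    ⟨fun y => ⟨_, hβ' y⟩, fun y => rfl⟩
  have hz_add : ∀ y y' : C, z (y + y') = z y + z y' := by
    intro y y'
    apply Subtype.ext
    rw [hz, Submodule.coe_add, Submodule.coe_add, hz, hz, add_pow_char_pow, mul_add]
  have hz_smul : ∀ (r : S) (y : C), z (r • y) = r ^ p ^ n • z y := by
    intro r y
    apply Subtype.ext
    rw [hz, Submodule.coe_smul, Submodule.coe_smul, hz, Algebra.smul_def, Algebra.smul_def, mul_pow,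
      map_pow]
    ring
  have key : ∀ s : S, ∃ c : S, ∀ (y : C) (t : S), e y (c * t) = T (e (z y) (t ^ p ^ n * s)) := by
    intro s
    obtain ⟨Λ, hΛ⟩ : ∃ Λ : C → (S →ₗ[P] P), ∀ y t, Λ y t = T (e (z y) (t ^ p ^ n * s)) := by
      refine ⟨fun y =>
        { toFun := fun t => T (e (z y) (t ^ p ^ n * s))
          map_add' := ?_
          map_smul' := ?_ }, fun y t => rfl⟩
      · intro a b
        rw [add_pow_char_pow, add_mul, map_add, map_add]
      · intro g a
        rw [RingHom.id_apply, smul_eq_mul, Algebra.smul_def, mul_pow, ← map_pow, mul_assoc,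
          ← Algebra.smul_def, map_smul, smul_eq_mul, hT]
    obtain ⟨w, hw⟩ : ∃ w : C → C, ∀ y, e (w y) = Λ y :=
      ⟨fun y => e.symm (Λ y), fun y => e.apply_symm_apply _⟩
    have hw_smul : ∀ (r : S) (y : C), w (r • y) = r ^ 1 • w y := by
      intro r y
      apply e.injective
      ext t
      rw [he, hw, hw, hΛ, hΛ, hz_smul, he, pow_one, mul_pow, mul_assoc]
    obtain ⟨y0, hy0⟩ := exists_ne e
    have hc : ∀ y : C, (w y : K) = (w y0 : K) / (y0 : K) * (y : K) := by
      intro y
      have := semilin 1 w hw_smul y0 hy0 y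
      rw [pow_one, pow_one] at this
      exact this
    have hint : IsIntegral S ((w y0 : K) / (y0 : K)) := by
      refine isIntegral_of_smul_mem_submodule C ?_ (C_fg e he) _ ?_
      · intro h
        apply hy0
        apply Subtype.ext
        exact (Submodule.eq_bot_iff C).1 h y0 y0.2
      · intro y hy
        rw [smul_eq_mul]
        have := hc ⟨y, hy⟩
        rw [← this]
        exact (w _).2
    obtain ⟨c, hcc⟩ := IsIntegrallyClosed.isIntegral_iff.1 hint
    refine ⟨c, fun y t => ?_⟩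
    have h5 : w y = c • y := by
      apply Subtype.ext
      rw [hc, Submodule.coe_smul, Algebra.smul_def, hcc]
    rw [← he, ← h5, hw, hΛ]
  choose φ hφ using key
  have huniq : ∀ s c : S, (∀ (y : C) (t : S), e y (c * t) = T (e (z y) (t ^ p ^ n * s))) →
      φ s = c := by
    intro s c h
    apply sepC e
    intro y
    have h1 := h y 1
    have h2 := hφ s y 1
    rw [mul_one] at h1 h2
    rw [h1, h2]
  refine ⟨⟨⟨φ, ?_⟩, ?_⟩, ?_, ?_⟩
  · apply huniq
    intro y t
    rw [zero_mul, mul_zero, map_zero, map_zero, map_zero]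
  · intro s s'
    apply huniq
    intro y t
    rw [add_mul, map_add, hφ, hφ, mul_add, map_add, map_add]
  · intro r s
    apply huniq
    intro y t
    have h1 := hφ s y (r * t)
    have h2 : φ s * (r * t) = r * φ s * t := by ring
    have h3 : (r * t) ^ p ^ n * s = t ^ p ^ n * (r ^ p ^ n * s) := by rw [mul_pow]; ring
    rw [h2, h3] at h1
    exact h1
  · intro y
    refine ⟨z y, hz y, fun s => ?_⟩
    have h1 := hφ s y 1
    rw [mul_one, one_pow, one_mul] at h1
    exact h1

end

theorem crt : S_CRT := by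
  intro p n _ P S K _ _ _ _ _ _ _ _ _ _ _ _ _ _ C hP hC
  obtain ⟨T, hT, hgen, hzero⟩ := hP
  obtain ⟨e, he⟩ := hC
  have hex : ∀ φ : {φ : S →+ S // IsCartier (p ^ n) φ}, ∃ β : K, Rel e (p ^ n) T φ.1 β :=
    fun φ => exists_beta e he hgen hzero φ.1 φ.2
  choose E hE using hex
  refine ⟨E, ?_, ?_, ?_, ?_⟩
  · intro φ φ' h
    have h1 := hE φ
    rw [h] at h1
    exact Subtype.ext (phi_uniq e _ _ h1 (hE φ'))
  · intro β
    constructor
    · intro hβ
      obtain ⟨φ, hφ, hrel⟩ := exists_phi e he hT β hβ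
      exact ⟨⟨φ, hφ⟩, beta_uniq e hzero φ (hE _) hrel⟩
    · rintro ⟨φ, rfl⟩
      exact rel_mem e (hE φ)
  · intro φ ψ χ h
    exact beta_uniq e hzero χ.1 (hE χ) (rel_add e (hE φ) (hE ψ) h)
  · intro r φ ψ h
    exact beta_uniq e hzero ψ.1 (hE ψ) (rel_smul e he r (hE φ) h)

end Pool.Agent.H404.FT867CRT
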