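import Pool.Agent.H546.APStm
import Pool.Agent.H546.Hasse

set_option autoImplicit false

/-!
# The differential equation of `T` modulo the square of `p` and its symmetry
-/

namespace Pool.Agent.H404.AP5

open Polynomial Finset
open Pool.Agent.H546 Pool.Agent.H546.AP
open Pool.Agent.Q267.Seven (dl dl_succ)
open Pool.Agent.Q267.MW (dl_vanish)
open Pool.Agent.Q267.CDE (R)

section gen

variable {A : Type*} [CommRing A]

theorem coeff_lg (n k : ℕ) : (lg n (X : A[X])).coeff k = (dl n k : A) := by
  have h := lg_ext n (n + 1 + k) (by omega) (X : A[X])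
  rw [← h, finsetSum_coeff]
  have h1 : ∀ j : ℕ, ((dl n j : A[X]) * X ^ j).coeff k = if j = k then (dl n k : A) else 0 := by
    intro j
    have h2 : (dl n j : A[X]) = C (dl n j : A) := by simp
    rw [h2, coeff_C_mul, coeff_X_pow]
    by_cases hj : j = k
    · rw [if_pos hj.symm, if_pos hj, mul_one, hj]
    · rw [if_neg (fun h => hj h.symm), if_neg hj, mul_zero]
  rw [sum_congr rfl fun j _ => h1 j, sum_ite_eq', if_pos (mem_range.2 (by omega))]

/-- the differential equation of the Legendre polynomial -/
theorem lg_ode (n : ℕ) : X * (1 - X) * derivative (derivative (lg n (X : A[X]))) +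
    (1 - 2 * X) * derivative (lg n (X : A[X])) + (n : A[X]) * ((n : A[X]) + 1) * lg n X = 0 := by
  have e : X * (1 - X) * derivative (derivative (lg n (X : A[X]))) +
      (1 - 2 * X) * derivative (lg n (X : A[X])) + (n : A[X]) * ((n : A[X]) + 1) * lg n X =
      X * derivative (derivative (lg n (X : A[X]))) -
      X * (X * derivative (derivative (lg n (X : A[X])))) + derivative (lg n (X : A[X])) -
      C 2 * (X * derivative (lg n (X : A[X]))) + C ((n : A) * (n + 1)) * lg n X := by
    have h1 : C ((n : A) * (n + 1)) = (n : A[X]) * ((n : A[X]) + 1) := by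
      rw [map_mul, map_add, map_one, map_natCast]
    rw [h1, map_ofNat]
    ring
  have h0 : ∀ k : ℕ, (dl n (k + 1) : A) * ((k : A) + 1) ^ 2 =
      ((k : A) ^ 2 + k - n * (n + 1)) * (dl n k : A) := by
    intro k
    have h := congrArg (Int.cast : ℤ → A) (dl_succ n k)
    push_cast at h
    exact h
  rw [e]
  ext k
  rw [coeff_zero]
  simp only [coeff_add, coeff_sub, coeff_C_mul]
  rcases k with _ | _ | k
  · simp only [coeff_X_mul_zero, coeff_derivative, coeff_lg]
    have h1 := h0 0
    push_cast at h1 ⊢
    rw [zero_add] at h1 ⊢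
    linear_combination h1
  · have h1 := h0 1
    rw [zero_add, coeff_X_mul, coeff_X_mul, coeff_X_mul_zero, coeff_X_mul]
    simp only [coeff_derivative, coeff_lg]
    push_cast at h1 ⊢
    linear_combination h1
  · have h1 := h0 (k + 2)
    rw [coeff_X_mul, coeff_X_mul, coeff_X_mul, coeff_X_mul]
    simp only [coeff_derivative, coeff_lg]
    push_cast at h1 ⊢
    linear_combination h1

theorem lg_comp (n : ℕ) : (lg n (X : A[X])).comp (1 - X) = (-1) ^ n * lg n (X : A[X]) := by
  rw [← lg_neg]
  unfold lg
  rw [← coe_compRingHom_apply, map_sum]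
  refine sum_congr rfl fun k _ => ?_
  rw [coe_compRingHom_apply, mul_comp, X_pow_comp, intCast_comp]

end gen

theorem h_S_tode : S_tode := by
  intro p hp hp2
  obtain ⟨e, h1, h2⟩ := idx4 p hp2
  have hle : 3 * p / 4 < p := by have := hp.out.pos; omega
  have hpl : (p : (R p)[X]) * lg (p / 4) (X : (R p)[X]) =
      (p : (R p)[X]) * lg (3 * p / 4) (X : (R p)[X]) := by
    ext k
    have e1 : (p : (R p)[X]) = C (p : R p) := by rw [map_natCast]
    rw [e1, coeff_C_mul, coeff_C_mul, coeff_lg, coeff_lg]
    by_cases hk : k < p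
    · exact (u4_leg p hp2 k hk).2
    · rw [dl_vanish _ k (by omega), dl_vanish _ k (by omega)]
  have o1 := lg_ode (A := R p) (p / 4)
  have o2 := lg_ode (A := R p) (3 * p / 4)
  have g1 := congrArg (C : R p → (R p)[X]) h1
  have g2 := congrArg (C : R p → (R p)[X]) h2
  simp only [map_mul, map_add, map_sub, map_neg, map_one, map_natCast, map_ofNat] at g1 g2
  refine ⟨?_, ?_⟩
  · unfold tq
    have hd3 : ∀ q : (R p)[X], derivative (3 * q) = 3 * derivative q := by
      intro q
      have : (3 : (R p)[X]) = C 3 := by rw [map_ofNat]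
      rw [this, derivative_C_mul]
    simp only [derivative_add, hd3]
    linear_combination 48 * o1 + 16 * o2 - 3 * lg (p / 4) (X : (R p)[X]) * g1 -
      lg (3 * p / 4) (X : (R p)[X]) * g2 - 6 * C e * hpl
  · unfold tq
    have h3c : ((3 : (R p)[X])).comp (1 - X) = 3 := by
      have : (3 : (R p)[X]) = C 3 := by rw [map_ofNat]
      rw [this, C_comp]
    rw [add_comp, mul_comp, h3c, lg_comp, lg_comp]
    have hpar : ((-1 : (R p)[X])) ^ (3 * p / 4) = (-1) ^ (p / 4) := by
      have h4 : p % 4 = 1 ∨ p % 4 = 3 := by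
        rcases hp.out.eq_two_or_odd with h | h <;> omega
      obtain ⟨d, hd⟩ : ∃ d, 3 * p / 4 = p / 4 + 2 * d := by
        rcases h4 with h | h
        · exact ⟨p / 4, by omega⟩
        · exact ⟨p / 4 + 1, by omega⟩
      rw [hd, pow_add, pow_mul, neg_one_sq, one_pow, mul_one]
    rw [hpar]
    ring

end Pool.Agent.H404.AP5
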