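import Pool.Agent.H979.DE.Stm

/-!
# Project DE: the bound of the irregular probability and its summability
-/

set_option autoImplicit false

open MeasureTheory Finset Filter Pool.Agent.H41.Derrw Pool.Agent.H979.DE

namespace Pool.Agent.H404

theorem de_wt_pos (γ : ℝ) (c : ℤ) : 0 < wt γ c := by
  unfold wt
  split_ifs with h1 h2
  · exact Real.rpow_pos_of_pos (by exact_mod_cast h1) γ
  · exact one_pos
  · have h3 : c < 0 := lt_of_le_of_ne (not_lt.1 h1) h2
    have h4 : (0 : ℝ) < -c := by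
      have : (c : ℝ) < 0 := by exact_mod_cast h3
      linarith
    exact Real.rpow_pos_of_pos h4 _

theorem de_wt_le_one (γ : ℝ) (hγ : 0 < γ) (c : ℤ) (hc : c ≤ 0) : wt γ c ≤ 1 := by
  unfold wt
  rw [if_neg (not_lt.2 hc)]
  split_ifs with h2
  · exact le_rfl
  · have h3 : c ≤ -1 := by omega
    have h4 : (1 : ℝ) ≤ -c := by
      have : (c : ℝ) ≤ -1 := by exact_mod_cast h3
      linarith
    exact Real.rpow_le_one_of_one_le_of_nonpos h4 (by linarith)

theorem de_irg : S_IRG := by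
  intro V _ G _ γ w n D hγ hD hdeg hgood
  obtain ⟨y1, hy1, hc1⟩ := hgood
  set N := G.neighborFinset (w n) with hN
  set c : V → ℤ := fun y => cross w n (w n) y with hc
  have hNcard : (N.card : ℝ) ≤ D := by
    rw [hN, SimpleGraph.card_neighborFinset_eq_degree]
    exact_mod_cast hdeg
  have hy1N : y1 ∈ N := by
    rw [hN, SimpleGraph.mem_neighborFinset]
    exact hy1
  set I : ℝ := ∑ y ∈ N.filter (fun y => c y ≤ 0), wt γ (c y) with hI
  set R : ℝ := ∑ y ∈ N.filter (fun y => ¬ c y ≤ 0), wt γ (c y) with hR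
  have hW : ∑ y ∈ N, wt γ (c y) = I + R :=
    (Finset.sum_filter_add_sum_filter_not N (fun y => c y ≤ 0) (fun y => wt γ (c y))).symm
  have hirr : irr G γ w n = I / (I + R) := by
    unfold irr
    rw [← hW, hI, Finset.sum_div]
    refine Finset.sum_congr rfl fun y hy => ?_
    have hyN := (Finset.mem_filter.1 hy).1
    have hadj : G.Adj (w n) y := by
      rw [← SimpleGraph.mem_neighborFinset]
      exact hyN
    unfold Pool.Agent.H41.Derrw.trans
    rw [if_pos hadj]
  set k : ℕ := out G w n (w n) with hk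
  have hk0 : 1 ≤ k := by
    rw [hk]
    unfold out
    have h1 : (cross w n (w n) y1).toNat ≤ ∑ y ∈ G.neighborFinset (w n),
        (cross w n (w n) y).toNat :=
      Finset.single_le_sum (f := fun y => (cross w n (w n) y).toNat) (fun _ _ => Nat.zero_le _) hy1N
    have h2 : 1 ≤ (cross w n (w n) y1).toNat := by omega
    omega
  have hD0 : (0 : ℝ) < D := by exact_mod_cast hD
  have hk0' : (0 : ℝ) < k := by exact_mod_cast hk0
  obtain ⟨y0, hy0, hy0c⟩ : ∃ y ∈ N, (k : ℝ) / D ≤ ((c y).toNat : ℝ) := by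
    refine Finset.exists_le_of_sum_le ⟨y1, hy1N⟩ ?_
    rw [Finset.sum_const, nsmul_eq_mul]
    have h1 : (∑ y ∈ N, ((c y).toNat : ℝ)) = k := by
      rw [hk]
      unfold out
      push_cast
      rfl
    rw [h1]
    calc (N.card : ℝ) * ((k : ℝ) / D) ≤ D * ((k : ℝ) / D) :=
          mul_le_mul_of_nonneg_right hNcard (by positivity)
      _ = k := by field_simp
  have hρ : 0 < (k : ℝ) / D := div_pos hk0' hD0
  have hy0pos : 0 < c y0 := by
    by_contra h
    have h1 : (c y0).toNat = 0 := Int.toNat_eq_zero.2 (not_lt.1 h)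
    rw [h1, Nat.cast_zero] at hy0c
    linarith
  have hy0eq : ((c y0).toNat : ℝ) = (c y0 : ℝ) := by
    have h1 : ((c y0).toNat : ℤ) = c y0 := Int.toNat_of_nonneg hy0pos.le
    exact_mod_cast h1
  have hRρ : ((k : ℝ) / D) ^ γ ≤ R := by
    have h1 : wt γ (c y0) ≤ R :=
      Finset.single_le_sum (f := fun y => wt γ (c y)) (fun y _ => (de_wt_pos γ (c y)).le)
        (Finset.mem_filter.2 ⟨hy0, not_le.2 hy0pos⟩)
    refine le_trans ?_ h1
    unfold wt
    rw [if_pos hy0pos]
    refine Real.rpow_le_rpow hρ.le ?_ hγ.le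
    rw [← hy0eq]
    exact hy0c
  have hρ0 : 0 < ((k : ℝ) / D) ^ γ := Real.rpow_pos_of_pos hρ γ
  have hI0 : 0 ≤ I := Finset.sum_nonneg fun y _ => (de_wt_pos γ (c y)).le
  have hID : I ≤ D := by
    calc I ≤ ∑ _y ∈ N.filter (fun y => c y ≤ 0), (1 : ℝ) :=
          Finset.sum_le_sum fun y hy => de_wt_le_one γ hγ _ (Finset.mem_filter.1 hy).2
      _ = ((N.filter (fun y => c y ≤ 0)).card : ℝ) := by
          rw [Finset.sum_const, nsmul_eq_mul, mul_one]
      _ ≤ (N.card : ℝ) := by exact_mod_cast Finset.card_filter_le _ _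
      _ ≤ D := hNcard
  rw [hirr]
  unfold pg
  rw [div_le_div_iff₀ (by linarith) (by linarith)]
  have h1 : I * ((k : ℝ) / D) ^ γ ≤ D * R := mul_le_mul hID hRρ hρ0.le hD0.le
  nlinarith

theorem de_pg : S_PG := by
  refine ⟨fun γ D hγ hD => ⟨?_, fun k hk => ?_⟩, fun γ hγ => ⟨?_, fun k hk => ?_⟩⟩
  · have hD0 : (0 : ℝ) < D := by exact_mod_cast hD
    rw [← summable_nat_add_iff 1]
    have h1 : Summable fun k : ℕ => (D : ℝ) * (D : ℝ) ^ γ * ((k + 1 : ℕ) : ℝ) ^ (-γ) :=
      ((summable_nat_add_iff 1).2 (Real.summable_nat_rpow.2 (by linarith : -γ < -1))).mul_left _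
    refine Summable.of_nonneg_of_le (fun k => ?_) (fun k => ?_) h1
    · unfold pg
      positivity
    · have hk0 : (0 : ℝ) < ((k + 1 : ℕ) : ℝ) := by exact_mod_cast Nat.succ_pos k
      have h2 : 0 < (((k + 1 : ℕ) : ℝ) / D) ^ γ := Real.rpow_pos_of_pos (div_pos hk0 hD0) γ
      have h3 : pg γ D (k + 1) ≤ D / (((k + 1 : ℕ) : ℝ) / D) ^ γ := by
        unfold pg
        exact div_le_div_of_nonneg_left hD0.le h2 (by linarith)
      refine h3.trans (le_of_eq ?_)
      rw [Real.div_rpow hk0.le hD0.le, Real.rpow_neg hk0.le]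
      have h4 : ((k + 1 : ℕ) : ℝ) ^ γ ≠ 0 := (Real.rpow_pos_of_pos hk0 γ).ne'
      have h5 : (D : ℝ) ^ γ ≠ 0 := (Real.rpow_pos_of_pos hD0 γ).ne'
      field_simp
  · have hD0 : (0 : ℝ) < D := by exact_mod_cast hD
    have hk0 : (0 : ℝ) < k := by exact_mod_cast hk
    have h2 : 0 < ((k : ℝ) / D) ^ γ := Real.rpow_pos_of_pos (div_pos hk0 hD0) γ
    unfold pg
    refine ⟨by positivity, ?_⟩
    rw [div_lt_one (by linarith)]
    linarith
  · rw [← summable_nat_add_iff 1]
    have h1 : Summable fun k : ℕ => ((k + 1 : ℕ) : ℝ) ^ (-(2 * γ)) :=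
      (summable_nat_add_iff 1).2 (Real.summable_nat_rpow.2 (by linarith : -(2 * γ) < -1))
    refine Summable.of_nonneg_of_le (fun k => ?_) (fun k => ?_) h1
    · unfold pc
      positivity
    · have hk0 : (0 : ℝ) < ((k + 1 : ℕ) : ℝ) := by exact_mod_cast Nat.succ_pos k
      have h2 : 0 < ((k + 1 : ℕ) : ℝ) ^ (2 * γ) := Real.rpow_pos_of_pos hk0 _
      unfold pc
      rw [Real.rpow_neg hk0.le, ← one_div]
      exact div_le_div_of_nonneg_left one_pos.le h2 (by linarith)
  · have hk0 : (0 : ℝ) < k := by exact_mod_cast hk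
    have h2 : 0 < (k : ℝ) ^ (2 * γ) := Real.rpow_pos_of_pos hk0 _
    unfold pc
    refine ⟨by positivity, ?_⟩
    rw [div_lt_one (by linarith)]
    linarith

end Pool.Agent.H404
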