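import Pool.Agent.H867.FT.Gen2
import Pool.Agent.H975.FT867POW

set_option autoImplicit false

namespace Pool.Agent.H404.FTTro

open Pool.Agent.H867.FT
open Polynomial IsLocalRing

/-- an element in all the valuation rings dominating `P` is integral over `P` -/
theorem dom_int {P K : Type} [CommRing P] [IsDomain P] [IsLocalRing P] [Field K] [Algebra P K] (y : K)
    (h : ∀ V : ValuationSubring K, (∀ p : P, algebraMap P K p ∈ V) →
      (∀ p ∈ maximalIdeal P, algebraMap P K p ∈ V.nonunits) → y ∈ V) :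
    IsIntegral P y := by
  by_contra hy
  have hy0 : y ≠ 0 := by
    rintro rfl
    exact hy isIntegral_zero
  let := invertibleOfNonzero hy0
  let B := Algebra.adjoin P {y⁻¹}
  let yinv : B := ⟨y⁻¹, Algebra.subset_adjoin rfl⟩
  have hne : (maximalIdeal P).map (algebraMap P B) ⊔ Ideal.span {yinv} ≠ ⊤ := by
    intro eq
    obtain ⟨p, hp, hpx⟩ := Algebra.exists_aeval_invOf_eq_zero_of_idealMap_adjoin_sup_span_eq_top _ _
      (maximalIdeal.isMaximal P).ne_top eq
    have H : IsUnit p.leadingCoeff := by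
      by_contra hu
      have h1 : (1 : P) ∈ maximalIdeal P := by
        have := (maximalIdeal P).sub_mem hu hp
        rwa [sub_sub_cancel] at this
      exact (maximalIdeal.isMaximal P).ne_top ((Ideal.eq_top_iff_one _).2 h1)
    exact hy ⟨.C H.unit⁻¹.1 * p, by simp [Polynomial.Monic], by simpa using .inr hpx⟩
  obtain ⟨V, hV1, hV2⟩ := Ideal.image_subset_nonunits_valuationSubring (A := B.toSubring) _ hne
  have hyV : y ∉ V := by
    have h1 : y⁻¹ ∈ V.nonunits :=
      hV2 ⟨yinv, Ideal.mem_sup_right (Ideal.subset_span rfl), rfl⟩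
    exact (V.inv_mem_nonunits_iff.mp h1).resolve_left hy0
  apply hyV
  apply h V
  · intro p
    exact hV1 (B.algebraMap_mem p)
  · intro p hp
    exact hV2 ⟨algebraMap P B p, Ideal.mem_sup_left (Ideal.mem_map_of_mem _ hp), rfl⟩

/-- if the residue field of `P` is algebraically closed and `V` dominates `P`, then an element of `V`
satisfying a nonzero quadratic equation modulo the maximal ideal is congruent to an element of
`P`. -/
theorem lift_root {P K : Type} [CommRing P] [IsLocalRing P] [Field K] [Algebra P K]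
    [IsAlgClosed (ResidueField P)] (V : ValuationSubring K)
    (hP : ∀ p : P, algebraMap P K p ∈ V)
    (hm : ∀ p ∈ maximalIdeal P, algebraMap P K p ∈ V.nonunits)
    (a b : P) (x : K) (hx : x ∈ V)
    (hA : algebraMap P K a * x ^ 2 + algebraMap P K b * x + 1 ∈ V.nonunits) :
    ∃ l : P, x - algebraMap P K l ∈ V.nonunits := by
  let f : P →+* V := (algebraMap P K).codRestrict V hP
  have hker : ∀ p ∈ maximalIdeal P, ((residue V).comp f) p = 0 := by
    intro p hp
    have h1 : f p ∈ maximalIdeal V := by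
      have h2 := hm p hp
      rw [ValuationSubring.mem_nonunits_iff_exists_mem_maximalIdeal] at h2
      obtain ⟨h3, h4⟩ := h2
      exact h4
    rw [RingHom.comp_apply]
    exact (residue_eq_zero_iff _).2 h1
  let φ : ResidueField P →+* ResidueField V := Ideal.Quotient.lift (maximalIdeal P)
    ((residue V).comp f) hker
  have hφ : ∀ p : P, φ (residue P p) = residue V (f p) := fun p => rfl
  let _ : Algebra (ResidueField P) (ResidueField V) := φ.toAlgebra
  set xb : ResidueField V := residue V ⟨x, hx⟩ with hxb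
  let G : (ResidueField P)[X] := C (residue P a) * X ^ 2 + C (residue P b) * X + 1
  have hG0 : G ≠ 0 := by
    intro h0
    have h1 : G.coeff 0 = 1 := by simp [G]
    rw [h0, coeff_zero] at h1
    exact zero_ne_one h1
  have hGx : aeval xb G = 0 := by
    have h1 : aeval xb G = residue V (f a * ⟨x, hx⟩ ^ 2 + f b * ⟨x, hx⟩ + 1) := by
      simp only [G, map_add, map_mul, map_pow, aeval_C, aeval_X, map_one]
      rfl
    rw [h1, residue_eq_zero_iff]
    rw [ValuationSubring.mem_nonunits_iff_exists_mem_maximalIdeal] at hA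
    obtain ⟨h3, h4⟩ := hA
    exact h4
  have halg : IsAlgebraic (ResidueField P) xb := ⟨G, hG0, hGx⟩
  have hint : IsIntegral (ResidueField P) xb := halg.isIntegral
  have hdeg := IsAlgClosed.degree_eq_one_of_irreducible (ResidueField P) (minpoly.irreducible hint)
  obtain ⟨lb, hlb⟩ := minpoly.mem_range_of_degree_eq_one (ResidueField P) xb hdeg
  obtain ⟨l, rfl⟩ := residue_surjective lb
  refine ⟨l, ?_⟩
  have h5 : residue V (⟨x, hx⟩ - f l) = 0 := by
    rw [map_sub, sub_eq_zero]
    exact hlb.symm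
  rw [residue_eq_zero_iff] at h5
  rw [ValuationSubring.mem_nonunits_iff_exists_mem_maximalIdeal]
  exact ⟨_, h5⟩


/-- powers of elements less than one decrease -/
theorem pow_lt_self' {Γ : Type} [LinearOrderedCommGroupWithZero Γ] {ζ : Γ} (h0 : ζ ≠ 0)
    (h1 : ζ < 1) {k : ℕ} (hk : 2 ≤ k) : ζ ^ k < ζ := by
  have hpos : 0 < ζ := zero_lt_iff.2 h0
  obtain ⟨j, rfl⟩ : ∃ j, k = j + 2 := ⟨k - 2, by omega⟩
  have h2 : ζ ^ (j + 1) < 1 := pow_lt_one₀ hpos.le h1 (by omega)
  calc ζ ^ (j + 2) = ζ ^ (j + 1) * ζ := by rw [pow_succ ζ (j + 1)]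
    _ < 1 * ζ := by
        exact mul_lt_mul_of_pos_right h2 hpos
    _ = ζ := one_mul _

/-- the main estimate in the value group -/
theorem estimate {Γ : Type} [LinearOrderedCommGroupWithZero Γ] (γ α ζ η : Γ) (k : ℕ) (hk : 2 ≤ k)
    (hζ0 : ζ ≠ 0) (hζ1 : ζ < 1)
    (h1 : γ * η = ζ ^ k)
    (hI : γ < 1 → α = 1 ∧ η ≤ 1)
    (hII : 1 ≤ γ → α < ζ * γ ^ 2 → ζ * γ ^ 2 ≤ η) (i : ℕ) (hi : i ≤ 2 * k + 1) :
    γ ^ i * ζ ^ k ≤ γ * α ^ k := by
  rcases lt_or_ge γ 1 with hγ | hγ
  · obtain ⟨h2, h3⟩ := hI hγ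
    rw [h2, one_pow, mul_one]
    have h4 : γ ^ i ≤ 1 := pow_le_one' hγ.le i
    calc γ ^ i * ζ ^ k ≤ 1 * ζ ^ k := by gcongr
      _ = γ * η := by rw [one_mul, h1]
      _ ≤ γ * 1 := by gcongr
      _ = γ := mul_one _
  · have h5 : ζ * γ ^ 2 ≤ α := by
      by_contra hcon
      rw [not_le] at hcon
      have h6 := hII hγ hcon
      have h7 : ζ ≤ ζ ^ k := by
        calc ζ = 1 * (ζ * 1) := by rw [mul_one, one_mul]
          _ ≤ γ * (ζ * γ ^ 2) := by
              have h8 : 1 ≤ γ ^ 2 := one_le_pow_of_one_le' hγ 2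
              gcongr
          _ ≤ γ * η := by gcongr
          _ = ζ ^ k := h1
      exact absurd (pow_lt_self' hζ0 hζ1 hk) (not_lt.2 h7)
    calc γ ^ i * ζ ^ k ≤ γ ^ (2 * k + 1) * ζ ^ k := by
          have h9 : γ ^ i ≤ γ ^ (2 * k + 1) := pow_le_pow_right' hγ hi
          gcongr
      _ = γ * (ζ * γ ^ 2) ^ k := by
          rw [mul_pow, ← pow_mul, pow_succ, mul_comm (γ ^ (2 * k)) γ, mul_assoc,
            mul_comm (γ ^ (2 * k)) (ζ ^ k)]
      _ ≤ γ * α ^ k := by gcongr


/-- coprimality of the two quadratic forms at a valuation ring dominating `P` -/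
theorem coprime_forms {P K : Type} [CommRing P] [IsLocalRing P] [Field K] [Algebra P K]
    [IsAlgClosed (ResidueField P)] (V : ValuationSubring K)
    (hP : ∀ p : P, algebraMap P K p ∈ V)
    (hm : ∀ p ∈ maximalIdeal P, algebraMap P K p ∈ V.nonunits)
    (c z a₁ b₁ a₂ b₂ : P) (x : K)
    (hc : c ∈ maximalIdeal P) (hz : z ∈ maximalIdeal P)
    (hunit : IsUnit a₁ ∨ IsUnit a₂)
    (hl : ∀ l : P, (a₁ * c + a₂ * z) * l ^ 2 + (b₁ * c + b₂ * z) * l + c ∉ maximalIdeal P ^ 2)
    (hx : 1 ≤ V.valuation x) :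
    V.valuation x ^ 2 ≤ V.valuation (algebraMap P K a₁ * x ^ 2 + algebraMap P K b₁ * x + 1) ∨
    V.valuation x ^ 2 ≤ V.valuation (algebraMap P K a₂ * x ^ 2 + algebraMap P K b₂ * x) := by
  have hv1 : ∀ p : P, V.valuation (algebraMap P K p) ≤ 1 := fun p =>
    (V.valuation_le_one_iff _).2 (hP p)
  have hvu : ∀ p : P, IsUnit p → V.valuation (algebraMap P K p) = 1 := by
    intro p hp
    obtain ⟨p', hp'⟩ := hp.exists_right_inv
    have h1 : V.valuation (algebraMap P K p) * V.valuation (algebraMap P K p') = 1 := by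
      rw [← map_mul, ← map_mul, hp', map_one, map_one]
    refine le_antisymm (hv1 p) ?_
    rw [← h1]
    exact mul_le_of_le_one_right' (hv1 p')
  rcases lt_or_eq_of_le hx with hx1 | hx1
  · -- `v(x) > 1`
    have hx2 : V.valuation x < V.valuation x ^ 2 := by
      have h0 : 0 < V.valuation x := lt_of_lt_of_le zero_lt_one hx1.le
      calc V.valuation x = V.valuation x * 1 := (mul_one _).symm
        _ < V.valuation x * V.valuation x := mul_lt_mul_of_pos_left hx1 h0
        _ = V.valuation x ^ 2 := (sq _).symm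
    rcases hunit with h | h
    · left
      have e1 : V.valuation (algebraMap P K a₁ * x ^ 2) = V.valuation x ^ 2 := by
        rw [map_mul, hvu _ h, one_mul, map_pow]
      have e2 : V.valuation (algebraMap P K b₁ * x + 1) < V.valuation (algebraMap P K a₁ * x ^ 2) := by
        rw [e1]
        refine V.valuation.map_add_lt ?_ ?_
        · rw [map_mul]
          exact lt_of_le_of_lt (mul_le_of_le_one_left' (hv1 b₁)) hx2
        · rw [map_one]
          exact lt_of_le_of_lt hx hx2
      rw [add_assoc, Valuation.map_add_eq_of_lt_left _ e2, e1]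
    · right
      have e1 : V.valuation (algebraMap P K a₂ * x ^ 2) = V.valuation x ^ 2 := by
        rw [map_mul, hvu _ h, one_mul, map_pow]
      have e2 : V.valuation (algebraMap P K b₂ * x) < V.valuation (algebraMap P K a₂ * x ^ 2) := by
        rw [e1, map_mul]
        exact lt_of_le_of_lt (mul_le_of_le_one_left' (hv1 b₂)) hx2
      rw [Valuation.map_add_eq_of_lt_left _ e2, e1]
  · -- `v(x) = 1`
    rw [← hx1, one_pow]
    by_contra hcon
    push Not at hcon
    obtain ⟨hA, hB⟩ := hcon
    have hxV : x ∈ V := (V.valuation_le_one_iff _).1 hx1.symm.le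
    have hA' : algebraMap P K a₁ * x ^ 2 + algebraMap P K b₁ * x + 1 ∈ V.nonunits :=
      (ValuationSubring.mem_nonunits_iff V).2 hA
    obtain ⟨l, hlx⟩ := lift_root V hP hm a₁ b₁ x hxV hA'
    have hlx' : V.valuation (x - algebraMap P K l) < 1 := (ValuationSubring.mem_nonunits_iff V).1 hlx
    have hnu : ∀ p : P, V.valuation (algebraMap P K p) < 1 → p ∈ maximalIdeal P := by
      intro p hp
      by_contra hpu
      have hpu' : IsUnit p := by
        by_contra h
        exact hpu h
      rw [hvu p hpu'] at hp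
      exact lt_irrefl _ hp
    have hlV : V.valuation (algebraMap P K l) ≤ 1 := hv1 l
    -- a general comparison
    have hcmp : ∀ p q r : P, V.valuation (algebraMap P K p * x ^ 2 + algebraMap P K q * x +
        algebraMap P K r) < 1 → p * l ^ 2 + q * l + r ∈ maximalIdeal P := by
      intro p q r hpq
      apply hnu
      have e : algebraMap P K (p * l ^ 2 + q * l + r) =
          (algebraMap P K p * x ^ 2 + algebraMap P K q * x + algebraMap P K r) -
          (x - algebraMap P K l) * (algebraMap P K p * (x + algebraMap P K l) +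
            algebraMap P K q) := by
        simp only [map_add, map_mul, map_pow]
        ring
      rw [e]
      refine V.valuation.map_sub_lt hpq ?_
      rw [map_mul]
      have h2 : V.valuation (algebraMap P K p * (x + algebraMap P K l) + algebraMap P K q) ≤ 1 := by
        refine V.valuation.map_add_le ?_ (hv1 q)
        rw [map_mul]
        exact mul_le_one' (hv1 p) (V.valuation.map_add_le hx1.symm.le hlV)
      calc _ ≤ V.valuation (x - algebraMap P K l) * 1 := by gcongr
        _ < 1 := by rw [mul_one]; exact hlx'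
    have hA2 : a₁ * l ^ 2 + b₁ * l + 1 ∈ maximalIdeal P := by
      apply hcmp
      rw [map_one]
      exact hA
    have hB2 : a₂ * l ^ 2 + b₂ * l + 0 ∈ maximalIdeal P := by
      apply hcmp
      rw [map_zero, add_zero]
      exact hB
    apply hl l
    have e : (a₁ * c + a₂ * z) * l ^ 2 + (b₁ * c + b₂ * z) * l + c =
        c * (a₁ * l ^ 2 + b₁ * l + 1) + z * (a₂ * l ^ 2 + b₂ * l + 0) := by ring
    rw [e, sq]
    exact Ideal.add_mem _ (Ideal.mul_mem_mul hc hA2) (Ideal.mul_mem_mul hz hB2)

section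

variable {P K : Type} [CommRing P] [Field K] [Algebra P K]

theorem Mn_pow_mem (x : K) {n i : ℕ} (hi : i ≤ n) : x ^ i ∈ Mn P x n :=
  Submodule.subset_span ⟨⟨i, by omega⟩, rfl⟩

theorem Mn_coe_mul (x : K) {n : ℕ} (p : P) {z : K} (hz : z ∈ Mn P x n) :
    algebraMap P K p * z ∈ Mn P x n := by
  rw [← Algebra.smul_def]
  exact Submodule.smul_mem _ p hz

theorem Mn_mono (x : K) {n m : ℕ} (h : n ≤ m) {z : K} (hz : z ∈ Mn P x n) : z ∈ Mn P x m := by
  refine Submodule.span_mono ?_ hz
  rintro _ ⟨i, rfl⟩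
  exact ⟨⟨i, by omega⟩, rfl⟩

theorem Mn_mul (x : K) {n m : ℕ} {y z : K} (hy : y ∈ Mn P x n) (hz : z ∈ Mn P x m) :
    y * z ∈ Mn P x (n + m) := by
  induction hy using Submodule.span_induction with
  | mem y hy =>
    obtain ⟨i, rfl⟩ := hy
    induction hz using Submodule.span_induction with
    | mem z hz =>
      obtain ⟨j, rfl⟩ := hz
      simp only
      rw [← pow_add]
      exact Mn_pow_mem x (by omega)
    | zero => rw [mul_zero]; exact Submodule.zero_mem _
    | add y z _ _ hy hz => rw [mul_add]; exact Submodule.add_mem _ hy hz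
    | smul p z _ hz =>
      rw [mul_smul_comm]
      exact Submodule.smul_mem _ p hz
  | zero => rw [zero_mul]; exact Submodule.zero_mem _
  | add y z _ _ hy hz => rw [add_mul]; exact Submodule.add_mem _ hy hz
  | smul p z _ hz =>
    rw [smul_mul_assoc]
    exact Submodule.smul_mem _ p hz

theorem Mn_one (x : K) (n : ℕ) : (1 : K) ∈ Mn P x n := by
  have := Mn_pow_mem (P := P) x (Nat.zero_le n)
  rwa [pow_zero] at this

theorem Mn_pow (x : K) {n : ℕ} {y : K} (hy : y ∈ Mn P x n) (j : ℕ) : y ^ j ∈ Mn P x (n * j) := by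
  induction j with
  | zero => rw [pow_zero]; exact Mn_one x _
  | succ j ih =>
    rw [pow_succ]
    exact Mn_mul x ih hy

theorem Mn_quad (x : K) (p q r : P) :
    algebraMap P K p * x ^ 2 + algebraMap P K q * x + algebraMap P K r ∈ Mn P x 2 := by
  refine Submodule.add_mem _ (Submodule.add_mem _ ?_ ?_) ?_
  · exact Mn_coe_mul x p (Mn_pow_mem x le_rfl)
  · have := Mn_coe_mul x q (Mn_pow_mem (P := P) x (show 1 ≤ 2 by norm_num))
    rwa [pow_one] at this
  · have := Mn_coe_mul x r (Mn_one (P := P) x 2)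
    rwa [mul_one] at this

/-- the expansion of `x (H/z - B)^j` -/
theorem expand (x H B : K) (z ρ : P) (k : ℕ) (hz : algebraMap P K z ≠ 0)
    (hH : H ∈ Mn P x 2) (hB : B ∈ Mn P x 2)
    (hxH : x * H = - (algebraMap P K z ^ k * algebraMap P K ρ)) (j : ℕ) (hj : j ≤ k) :
    ∃ s ∈ Mn P x (2 * j), x * (H / algebraMap P K z - B) ^ j =
      x * (-B) ^ j + algebraMap P K z ^ (k - j) * s := by
  induction j with
  | zero =>
    refine ⟨0, Submodule.zero_mem _, ?_⟩
    rw [pow_zero, pow_zero, mul_zero, add_zero]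
  | succ j ih =>
    obtain ⟨s, hs, he⟩ := ih (by omega)
    refine ⟨algebraMap P K (-(z ^ j * ρ)) * (-B) ^ j + s * H + algebraMap P K (-z) * (s * B),
      ?_, ?_⟩
    · refine Submodule.add_mem _ (Submodule.add_mem _ ?_ ?_) ?_
      · exact Mn_coe_mul x _ (Mn_mono x (by omega) (Mn_pow x (Submodule.neg_mem _ hB) j))
      · exact Mn_mul x hs hH
      · exact Mn_coe_mul x _ (Mn_mul x hs hB)
    · obtain ⟨m, hm⟩ : ∃ m, k = j + 1 + m := ⟨k - (j + 1), by omega⟩
      have e1 : k - j = m + 1 := by omega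
      have e2 : k - (j + 1) = m := by omega
      rw [e1] at he
      rw [e2]
      have h1 : x * (H / algebraMap P K z - B) ^ (j + 1) =
          (x * (H / algebraMap P K z - B) ^ j) * (H / algebraMap P K z - B) := by
        rw [pow_succ]
        ring
      rw [h1, he]
      have h2 : x * (H / algebraMap P K z) =
          - (algebraMap P K z ^ (j + m) * algebraMap P K ρ) := by
        rw [← mul_div_assoc, hxH, hm]
        rw [div_eq_iff hz]
        ring
      simp only [map_neg, map_mul, map_pow]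
      have h3 : algebraMap P K z * (H / algebraMap P K z) = H := by
        rw [mul_div_cancel₀]
        exact hz
      linear_combination ((-B) ^ j) * h2 + algebraMap P K z ^ m * s * h3

end

/-- the valuation estimate for `x ^ i / t₀` -/
theorem val_est {P K : Type} [CommRing P] [IsLocalRing P] [Field K] [Algebra P K]
    [IsAlgClosed (ResidueField P)] (V : ValuationSubring K)
    (hP : ∀ p : P, algebraMap P K p ∈ V)
    (hm : ∀ p ∈ maximalIdeal P, algebraMap P K p ∈ V.nonunits)
    (c z a₁ b₁ a₂ b₂ ρ : P) (x A B H : K) (k : ℕ) (hk : 2 ≤ k)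
    (hc : c ∈ maximalIdeal P) (hz : z ∈ maximalIdeal P)
    (hunit : IsUnit a₁ ∨ IsUnit a₂) (hρ : IsUnit ρ)
    (hl : ∀ l : P, (a₁ * c + a₂ * z) * l ^ 2 + (b₁ * c + b₂ * z) * l + c ∉ maximalIdeal P ^ 2)
    (hA : A = algebraMap P K a₁ * x ^ 2 + algebraMap P K b₁ * x + 1)
    (hB : B = algebraMap P K a₂ * x ^ 2 + algebraMap P K b₂ * x)
    (hH : H = algebraMap P K c * A + algebraMap P K z * B)
    (hxH : x * H = - (algebraMap P K z ^ k * algebraMap P K ρ))
    (hz0 : algebraMap P K z ≠ 0) (hx0 : x ≠ 0) (hA0 : A ≠ 0)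
    (i : ℕ) (hi : i ≤ 2 * k + 1) :
    x ^ i / (x * (A / algebraMap P K z) ^ k) ∈ V := by
  have hv1 : ∀ p : P, V.valuation (algebraMap P K p) ≤ 1 := fun p =>
    (V.valuation_le_one_iff _).2 (hP p)
  have hvu : ∀ p : P, IsUnit p → V.valuation (algebraMap P K p) = 1 := by
    intro p hp
    obtain ⟨p', hp'⟩ := hp.exists_right_inv
    have h1 : V.valuation (algebraMap P K p) * V.valuation (algebraMap P K p') = 1 := by
      rw [← map_mul, ← map_mul, hp', map_one, map_one]
    refine le_antisymm (hv1 p) ?_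
    rw [← h1]
    exact mul_le_of_le_one_right' (hv1 p')
  have hvm : ∀ p ∈ maximalIdeal P, V.valuation (algebraMap P K p) < 1 := fun p hp =>
    (ValuationSubring.mem_nonunits_iff V).1 (hm p hp)
  have hζ0 : V.valuation (algebraMap P K z) ≠ 0 := by
    rw [Ne, map_eq_zero]
    exact hz0
  have hζ1 : V.valuation (algebraMap P K z) < 1 := hvm z hz
  have h1 : V.valuation x * V.valuation H = V.valuation (algebraMap P K z) ^ k := by
    rw [← map_mul, hxH, Valuation.map_neg, map_mul, hvu ρ hρ, mul_one, map_pow]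
  have hI : V.valuation x < 1 → V.valuation A = 1 ∧ V.valuation H ≤ 1 := by
    intro hx
    have hax : V.valuation (algebraMap P K a₁ * x ^ 2) < 1 := by
      rw [map_mul, map_pow]
      have h2 : V.valuation x ^ 2 < 1 := pow_lt_one₀ (by simp) hx (by norm_num)
      exact lt_of_le_of_lt (mul_le_of_le_one_left' (hv1 a₁)) h2
    have hbx : V.valuation (algebraMap P K b₁ * x) < 1 := by
      rw [map_mul]
      exact lt_of_le_of_lt (mul_le_of_le_one_left' (hv1 b₁)) hx
    have hA1 : V.valuation A = 1 := by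
      rw [hA, Valuation.map_add_eq_of_lt_right, map_one]
      rw [map_one]
      exact V.valuation.map_add_lt hax hbx
    refine ⟨hA1, ?_⟩
    have hB1 : V.valuation B ≤ 1 := by
      rw [hB]
      refine V.valuation.map_add_le ?_ ?_
      · rw [map_mul, map_pow]
        exact mul_le_one' (hv1 a₂) (pow_le_one' hx.le 2)
      · rw [map_mul]
        exact mul_le_one' (hv1 b₂) hx.le
    rw [hH]
    refine V.valuation.map_add_le ?_ ?_
    · rw [map_mul]
      exact mul_le_one' (hv1 c) hA1.le
    · rw [map_mul]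
      exact mul_le_one' (hv1 z) hB1
  have hII : 1 ≤ V.valuation x →
      V.valuation A < V.valuation (algebraMap P K z) * V.valuation x ^ 2 →
      V.valuation (algebraMap P K z) * V.valuation x ^ 2 ≤ V.valuation H := by
    intro hx hAx
    rcases coprime_forms V hP hm c z a₁ b₁ a₂ b₂ x hc hz hunit hl hx with h | h
    · exfalso
      rw [← hA] at h
      have h2 : V.valuation (algebraMap P K z) * V.valuation x ^ 2 ≤ V.valuation x ^ 2 :=
        mul_le_of_le_one_left' hζ1.le
      exact absurd (lt_of_lt_of_le hAx (h2.trans h)) (lt_irrefl _)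
    · rw [← hB] at h
      have h2 : V.valuation (algebraMap P K z) * V.valuation x ^ 2 ≤
          V.valuation (algebraMap P K z * B) := by
        rw [map_mul]
        gcongr
      have h3 : V.valuation (algebraMap P K c * A) < V.valuation (algebraMap P K z * B) := by
        refine lt_of_le_of_lt ?_ (lt_of_lt_of_le hAx h2)
        rw [map_mul]
        exact mul_le_of_le_one_left' (hv1 c)
      rw [hH, Valuation.map_add_eq_of_lt_right _ h3]
      exact h2
  have hest := estimate (V.valuation x) (V.valuation A) (V.valuation (algebraMap P K z))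
    (V.valuation H) k hk hζ0 hζ1 h1 hI hII i hi
  rw [← V.valuation_le_one_iff]
  have hx0' : V.valuation x ≠ 0 := by
    rw [Ne, map_eq_zero]
    exact hx0
  have hA0' : V.valuation A ≠ 0 := by
    rw [Ne, map_eq_zero]
    exact hA0
  have e : x ^ i / (x * (A / algebraMap P K z) ^ k) =
      (x ^ i * algebraMap P K z ^ k) / (x * A ^ k) := by
    rw [div_pow]
    field_simp
  rw [e, map_div₀, map_mul, map_mul, map_pow, map_pow, map_pow]
  have hpos : 0 < V.valuation x * V.valuation A ^ k :=
    zero_lt_iff.2 (mul_ne_zero hx0' (pow_ne_zero _ hA0'))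
  rw [div_le_one₀ hpos]
  exact hest

theorem tro : S_TRO := by
  intro P R L K _ _ _ _ _ _ _ _ _ _ _ _ _ _ _ _ _ _ _ _ C a b c z ρ k x y₀ ω θ hcub hk hρ
    hz0 hc0 hc hz ha hb ha2 hl
  obtain ⟨a₁, a₂, rfl⟩ := Ideal.mem_span_pair.1 ha
  obtain ⟨b₁, b₂, rfl⟩ := Ideal.mem_span_pair.1 hb
  have hunit : IsUnit a₁ ∨ IsUnit a₂ := by
    by_contra hcon
    push Not at hcon
    obtain ⟨h1, h2⟩ := hcon
    apply ha2
    rw [sq]
    exact Ideal.add_mem _ (Ideal.mul_mem_mul h1 hc) (Ideal.mul_mem_mul h2 hz)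
  have hinj : Function.Injective (algebraMap P K) := by
    rw [IsScalarTower.algebraMap_eq P L K]
    exact (algebraMap L K).injective.comp (IsFractionRing.injective P L)
  have hzK : algebraMap P K z ≠ 0 := by
    rw [Ne, map_eq_zero_iff _ hinj]
    exact hz0
  have hPL : ∀ p : P, algebraMap L K (algebraMap P L p) = algebraMap P K p := fun p =>
    (IsScalarTower.algebraMap_apply P L K p).symm
  have hx0 : x ≠ 0 := by
    intro h0
    have h1 := hcub.ind 0 1 0 (by rw [h0]; simp)
    exact one_ne_zero h1.2.1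
  obtain ⟨A, hA⟩ : ∃ A : K, A = algebraMap P K a₁ * x ^ 2 + algebraMap P K b₁ * x + 1 := ⟨_, rfl⟩
  obtain ⟨B, hB⟩ : ∃ B : K, B = algebraMap P K a₂ * x ^ 2 + algebraMap P K b₂ * x := ⟨_, rfl⟩
  obtain ⟨H, hH⟩ : ∃ H : K, H = algebraMap P K c * A + algebraMap P K z * B := ⟨_, rfl⟩
  have hA0 : A ≠ 0 := by
    intro h0
    have h1 := hcub.ind 1 (algebraMap P L b₁) (algebraMap P L a₁) (by
      rw [map_one, hPL, hPL, ← h0, hA]
      ring)
    exact one_ne_zero h1.1
  have hxH : x * H = - (algebraMap P K z ^ k * algebraMap P K ρ) := by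
    have h1 := hcub.root
    simp only [map_add, map_mul, map_pow] at h1
    rw [hH, hA, hB]
    linear_combination h1
  have hAM : A ∈ Mn P x 2 := by
    have := Mn_quad x a₁ b₁ 1
    rwa [map_one, ← hA] at this
  have hBM : B ∈ Mn P x 2 := by
    have := Mn_quad x a₂ b₂ 0
    rwa [map_zero, add_zero, ← hB] at this
  have hHM : H ∈ Mn P x 2 := by
    rw [hH]
    exact Submodule.add_mem _ (Mn_coe_mul x c hAM) (Mn_coe_mul x z hBM)
  have ht0 : x * (A / algebraMap P K z) ^ k ≠ 0 :=
    mul_ne_zero hx0 (pow_ne_zero _ (div_ne_zero hA0 hzK))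
  have hpow := Pool.Agent.H975.FTPow.pow P R K C (a₁ * c + a₂ * z) (b₁ * c + b₂ * z) c (z ^ k * ρ)
    x y₀ ω θ hcub.hy hcub.root hcub.hω hcub.hθ hcub.gen hcub.hC (2 * k + 1) (by omega)
  -- elements of `M_{2k+1}` are multiples of `t₀`
  have hgen : ∀ i ≤ 2 * k + 1, ∃ r : R, algebraMap R K r =
      x ^ i / (x * (A / algebraMap P K z) ^ k) := by
    intro i hi
    have h1 : IsIntegral P (x ^ i / (x * (A / algebraMap P K z) ^ k)) := by
      apply dom_int
      intro V hP hm
      exact val_est V hP hm c z a₁ b₁ a₂ b₂ ρ x A B H k hk hc hz hunit hρ hl hA hB hH hxH hzK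
        hx0 hA0 i hi
    have h2 : IsIntegral R (x ^ i / (x * (A / algebraMap P K z) ^ k)) := h1.tower_top
    exact IsIntegrallyClosed.isIntegral_iff.1 h2
  have hmul : ∀ m ∈ Mn P x (2 * k + 1), ∃ r : R, m =
      algebraMap R K r * (x * (A / algebraMap P K z) ^ k) := by
    intro m hm
    induction hm using Submodule.span_induction with
    | mem m hm =>
      obtain ⟨i, rfl⟩ := hm
      obtain ⟨r, hr⟩ := hgen i (by omega)
      refine ⟨r, ?_⟩
      rw [hr]
      exact (div_mul_cancel₀ _ ht0).symm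
    | zero => exact ⟨0, by simp⟩
    | add m m' _ _ h1 h2 =>
      obtain ⟨r, hr⟩ := h1
      obtain ⟨r', hr'⟩ := h2
      exact ⟨r + r', by rw [hr, hr', map_add, add_mul]⟩
    | smul p m _ h1 =>
      obtain ⟨r, hr⟩ := h1
      refine ⟨algebraMap P R p * r, ?_⟩
      rw [hr, map_mul, ← IsScalarTower.algebraMap_apply, Algebra.smul_def, mul_assoc]
  refine ⟨y₀ ^ (2 * k + 1) * (x * (A / algebraMap P K z) ^ k),
    mul_ne_zero (pow_ne_zero _ hcub.hy) ht0, ?_, ?_, ?_⟩
  · intro y hy
    obtain ⟨m, hm, rfl⟩ := (hpow y).1 hy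
    obtain ⟨r, hr⟩ := hmul m hm
    refine ⟨r, ?_⟩
    rw [hr]
    ring
  · rw [hpow]
    refine ⟨x * A ^ k, ?_, ?_⟩
    · have h1 : x ∈ Mn P x 1 := by
        have := Mn_pow_mem (P := P) x (le_refl 1)
        rwa [pow_one] at this
      exact Mn_mono x (by omega) (Mn_mul x h1 (Mn_pow x hAM k))
    · rw [map_pow, div_pow]
      field_simp
  · rw [hpow]
    obtain ⟨s, hs, he⟩ := expand x H B z ρ k hzK hHM hBM hxH k le_rfl
    rw [Nat.sub_self, pow_zero, one_mul] at he
    refine ⟨x * (-B) ^ k + s, ?_, ?_⟩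
    · refine Submodule.add_mem _ ?_ (Mn_mono x (by omega) hs)
      have h1 : x ∈ Mn P x 1 := by
        have := Mn_pow_mem (P := P) x (le_refl 1)
        rwa [pow_one] at this
      exact Mn_mono x (by omega) (Mn_mul x h1 (Mn_pow x (Submodule.neg_mem _ hBM) k))
    · rw [← he]
      have h2 : H / algebraMap P K z - B = algebraMap P K c * (A / algebraMap P K z) := by
        rw [hH]
        field_simp
        ring
      rw [h2, map_pow, mul_pow]
      ring

end Pool.Agent.H404.FTTro

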