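import Mathlib
import Pool.Agent.H979.GW.StmB

/-!
# GW DET: deterministic comparison of two functions along a tree path
-/

set_option autoImplicit false

open MeasureTheory ProbabilityTheory Filter Topology Set
open scoped ENNReal NNReal
open Pool.Agent.H979.GW

namespace Pool.Agent.H404

section det

variable {Λ : Type} [DecidableEq Λ]

omit [DecidableEq Λ] in
theorem inT_suffix {ch : List Λ → Finset Λ} {u v : List Λ} (h : u <:+ v) (hv : InT ch v) :
    InT ch u := by
  induction v with
  | nil => rw [List.suffix_nil] at h; subst h; exact hv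
  | cons c v ih =>
    rcases List.suffix_cons_iff.1 h with h | h
    · subst h; exact hv
    · exact ih h hv.1

omit [DecidableEq Λ] in
theorem sf_nonneg {ch : List Λ → Finset Λ} {W : List Λ → ℝ} (hW : ∀ v, InT ch v → 0 ≤ W v)
    {v : List Λ} (hv : InT ch v) : 0 ≤ Sf W v := by
  induction v with
  | nil => exact le_refl _
  | cons c v ih => exact add_nonneg (hW _ hv) (ih hv.1)

/-- every proper ancestor step has been made -/
theorem first_visit {w : ℕ → List Λ} (h0 : w 0 = [])
    (hs : ∀ s, (∃ b, w (s + 1) = b :: w s) ∨ (∃ b, w s = b :: w (s + 1))) (r : ℕ) (c : Λ)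
    (u : List Λ) (hu : (c :: u) <:+ w r) : ∃ s < r, w s = u ∧ w (s + 1) = c :: u := by
  induction r with
  | zero =>
    rw [h0, List.suffix_nil] at hu
    exact absurd hu (by simp)
  | succ r ih =>
    rcases hs r with ⟨b, hb⟩ | ⟨b, hb⟩
    · rw [hb] at hu
      rcases List.suffix_cons_iff.1 hu with h | h
      · have h1 := List.cons.inj h
        exact ⟨r, Nat.lt_succ_self r, h1.2.symm, by rw [hb, h]⟩
      · obtain ⟨s, h1, h2⟩ := ih h
        exact ⟨s, h1.trans (Nat.lt_succ_self r), h2⟩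
    · have h3 : (c :: u) <:+ w r := by
        rw [hb]
        exact hu.trans (List.suffix_cons _ _)
      obtain ⟨s, h1, h2⟩ := ih h3
      exact ⟨s, h1.trans (Nat.lt_succ_self r), h2⟩

/-- a common ancestor is visited between two times -/
theorem common {w : ℕ → List Λ}
    (hs : ∀ s, (∃ b, w (s + 1) = b :: w s) ∨ (∃ b, w s = b :: w (s + 1))) (a k : ℕ) :
    ∃ r, a ≤ r ∧ r ≤ a + k ∧ w r <:+ w a ∧ w r <:+ w (a + k) := by
  induction k with
  | zero => exact ⟨a, le_refl _, le_refl _, List.suffix_refl _, List.suffix_refl _⟩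
  | succ k ih =>
    obtain ⟨r, h1, h2, h3, h4⟩ := ih
    rcases hs (a + k) with ⟨b, hb⟩ | ⟨b, hb⟩
    · refine ⟨r, h1, by omega, h3, ?_⟩
      show w r <:+ w (a + k + 1)
      rw [hb]
      exact h4.trans (List.suffix_cons _ _)
    · rw [hb] at h4
      rcases List.suffix_cons_iff.1 h4 with h | h
      · refine ⟨a + k + 1, by omega, le_refl _, ?_, List.suffix_refl _⟩
        refine List.IsSuffix.trans ?_ h3
        rw [h]
        exact List.suffix_cons _ _
      · exact ⟨r, h1, by omega, h3, h⟩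

end det

theorem gw_det : S_DET := by
  intro ρ η hρ hη
  refine ⟨η * (1 + 2 * (2 * ρ - 1) / ((ρ - 1) * η)) + 2 + η + 1 / (ρ - 1), ?_, ?_⟩
  · have h1 : 0 < ρ - 1 := by linarith
    have h2 : 0 < 2 * ρ - 1 := by linarith
    positivity
  intro Λ _ ch W hW w n d x A ε hε hε2 hx hA w0 hT hs hd hdn hroot hlen hmod hbad hgood s hsn
  have hρ1 : 0 < ρ - 1 := by linarith
  have hex : 0 ≤ ε * x := mul_nonneg hε.le hx
  -- the modulus in symmetric form
  have hmod2 : ∀ a ≤ n, ∀ b ≤ n, (a ≤ b → b ≤ a + d) → (b ≤ a → a ≤ b + d) →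
      |Sf W (w a) - Sf W (w b)| ≤ ε * x := by
    intro a ha b hb h1 h2
    rcases le_total a b with h | h
    · exact hmod a ha b hb h (h1 h)
    · rw [abs_sub_comm]
      exact hmod b hb a ha h (h2 h)
  -- `W` is small on the visited vertices
  have hsmall : ∀ r ≤ n, W (w r) ≤ ε * x := by
    intro r hr
    cases hwr : w r with
    | nil =>
      have h1 : 0 ≤ W [] := hW [] (by rw [← w0]; exact hT 0)
      nlinarith
    | cons c u =>
      obtain ⟨q, h1, h2, h3⟩ := first_visit w0 hs r c u (by rw [hwr])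
      have h4 := hmod (q + 1) (by omega) (q + 1) (by omega) (le_refl _) (by omega)
      have h5 := hmod q (by omega) (q + 1) (by omega) (by omega) (by omega)
      rw [h2, h3] at h5
      have h6 : Sf W u - Sf W (c :: u) = - W (c :: u) := by
        show Sf W u - (W (c :: u) + Sf W u) = _
        ring
      rw [h6, abs_neg] at h5
      exact (le_abs_self _).trans h5
  -- a good time
  obtain ⟨t, htn, hst1, hst2, htg⟩ : ∃ t ≤ n, (s ≤ t → t ≤ s + d) ∧ (t ≤ s → s ≤ t + d) ∧
      Sf W (w t) - η * (w t).length ≤ ε * x := by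
    by_cases hsd : s + d ≤ n
    · obtain ⟨t, h1, h2, h3⟩ := hgood s hsd
      exact ⟨t, by omega, fun _ => h2, fun _ => by omega, h3⟩
    · obtain ⟨t, h1, h2, h3⟩ := hgood (n - d) (by omega)
      exact ⟨t, by omega, fun _ => by omega, fun _ => by omega, h3⟩
  -- a common ancestor
  obtain ⟨r, hrn, hr1, hr2, hr3, hr4⟩ : ∃ r ≤ n, (r ≤ t → t ≤ r + d) ∧ (t ≤ r → r ≤ t + d) ∧
      w r <:+ w s ∧ w r <:+ w t := by
    rcases le_total s t with h | h
    · obtain ⟨r, h1, h2, h3, h4⟩ := common hs s (t - s)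
      rw [Nat.add_sub_cancel' h] at h2 h4
      have := hst1 h
      exact ⟨r, by omega, fun _ => by omega, fun _ => by omega, h3, h4⟩
    · obtain ⟨r, h1, h2, h3, h4⟩ := common hs t (s - t)
      rw [Nat.add_sub_cancel' h] at h2 h4
      have := hst2 h
      exact ⟨r, by omega, fun _ => by omega, fun _ => by omega, h4, h3⟩
  have hlr : (w r).length ≤ (w s).length := hr3.length_le
  have hlt : (w r).length ≤ (w t).length := hr4.length_le
  have hdrop : (w t).drop ((w t).length - (w r).length) = w r :=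
    (List.suffix_iff_eq_drop.1 hr4).symm
  have hWt : 0 ≤ W (w t) := hW _ (hT t)
  have hWs : 0 ≤ W (w s) := hW _ (hT s)
  have hSs : 0 ≤ Sf W (w s) := sf_nonneg hW (hT s)
  set K1 : ℝ := 1 + 2 * (2 * ρ - 1) / ((ρ - 1) * η) with hK1
  have hK1p : 0 ≤ 2 * (2 * ρ - 1) / ((ρ - 1) * η) := by
    have h2 : 0 < 2 * ρ - 1 := by linarith
    positivity
  -- the distance to the ancestor
  have hi : (((w t).length : ℝ) - (w r).length) ≤ K1 * (ε * x) := by
    have h1 : ¬ (ε * x ≤ (((w t).length - (w r).length : ℕ) : ℝ) ∧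
        (ρ - 1) * (Sf W (w t) - Sf W (w r)) - ρ * W (w t) + ρ * W (w r) <
          ((ρ - 1) * η - ε) * (((w t).length - (w r).length : ℕ) : ℝ)) := by
      intro h
      refine hbad t htn ⟨(w t).length - (w r).length, Nat.sub_le _ _, h.1, ?_⟩
      rw [hdrop]
      exact h.2
    rw [Nat.cast_sub hlt] at h1
    set i : ℝ := ((w t).length : ℝ) - (w r).length with hi
    by_cases h2 : ε * x ≤ i
    · have h3 : ((ρ - 1) * η - ε) * i ≤
          (ρ - 1) * (Sf W (w t) - Sf W (w r)) - ρ * W (w t) + ρ * W (w r) := by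
        by_contra hc
        exact h1 ⟨h2, not_le.1 hc⟩
      have h4 : Sf W (w t) - Sf W (w r) ≤ ε * x :=
        (le_abs_self _).trans (hmod2 t htn r hrn hr2 hr1)
      have h5 := hsmall r hrn
      have h6 : 0 ≤ i := hex.trans h2
      have h7 : (ρ - 1) * η / 2 * i ≤ (2 * ρ - 1) * (ε * x) := by
        have h8 : (ρ - 1) * η / 2 * i ≤ ((ρ - 1) * η - ε) * i :=
          mul_le_mul_of_nonneg_right (by linarith) h6
        have h9 : (ρ - 1) * (Sf W (w t) - Sf W (w r)) ≤ (ρ - 1) * (ε * x) :=
          mul_le_mul_of_nonneg_left h4 hρ1.le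
        have h10 : ρ * W (w r) ≤ ρ * (ε * x) := mul_le_mul_of_nonneg_left h5 (by linarith)
        have h11 : 0 ≤ ρ * W (w t) := mul_nonneg (by linarith) hWt
        linarith
      have h8 : 0 < (ρ - 1) * η := mul_pos hρ1 hη
      have h9 : i ≤ 2 * (2 * ρ - 1) / ((ρ - 1) * η) * (ε * x) := by
        rw [div_mul_eq_mul_div, le_div_iff₀ h8]
        linarith
      rw [hK1]
      linarith
    · rw [hK1]
      have : 0 ≤ 2 * (2 * ρ - 1) / ((ρ - 1) * η) * (ε * x) := mul_nonneg hK1p hex
      push Not at h2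
      linarith
  have hlr' : ((w r).length : ℝ) ≤ (w s).length := by exact_mod_cast hlr
  have hst := (le_abs_self _).trans (hmod2 s hsn t htn hst1 hst2)
  -- upper bound
  have hup : Sf W (w s) - η * (w s).length ≤ (η * K1 + 2) * (ε * x) := by
    have h1 : η * ((w t).length : ℝ) ≤ η * ((w s).length + K1 * (ε * x)) :=
      mul_le_mul_of_nonneg_left (by linarith) hη.le
    linarith
  -- lower bound
  have hlow : -((η + 1 / (ρ - 1)) * (1 + A) * (ε * x)) ≤ Sf W (w s) - η * (w s).length := by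
    have h1 : ¬ (ε * x ≤ ((w s).length : ℝ) ∧
        (ρ - 1) * (Sf W (w s) - 0) - ρ * W (w s) + ρ * W [] <
          ((ρ - 1) * η - ε) * ((w s).length : ℝ)) := by
      intro h
      refine hbad s hsn ⟨(w s).length, le_refl _, h.1, ?_⟩
      rw [List.drop_length]
      exact h.2
    have hq : 0 ≤ 1 / (ρ - 1) := by positivity
    have hAe : 0 ≤ A * (ε * x) := mul_nonneg hA hex
    by_cases h2 : ε * x ≤ ((w s).length : ℝ)
    · have h3 : ((ρ - 1) * η - ε) * ((w s).length : ℝ) ≤
          (ρ - 1) * (Sf W (w s) - 0) - ρ * W (w s) + ρ * W [] := by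
        by_contra hc
        exact h1 ⟨h2, not_le.1 hc⟩
      have h4 : ε * ((w s).length : ℝ) ≤ ε * (A * x) :=
        mul_le_mul_of_nonneg_left (hlen s hsn) hε.le
      have h5 : 0 ≤ ρ * W (w s) := mul_nonneg (by linarith) hWs
      have h6 : -((1 + A) * (ε * x)) ≤ (ρ - 1) * (Sf W (w s) - η * (w s).length) := by
        nlinarith
      have h7 : -(1 / (ρ - 1) * ((1 + A) * (ε * x))) ≤ Sf W (w s) - η * (w s).length := by
        have h8 := mul_le_mul_of_nonneg_left h6 hq
        have h9 : 1 / (ρ - 1) * ((ρ - 1) * (Sf W (w s) - η * (w s).length)) =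
            Sf W (w s) - η * (w s).length := by
          field_simp
        rw [h9] at h8
        linarith
      have h10 : 0 ≤ η * ((1 + A) * (ε * x)) := by
        have : 0 ≤ 1 + A := by linarith
        positivity
      linarith
    · push Not at h2
      have h3 : η * ((w s).length : ℝ) ≤ η * (ε * x) := mul_le_mul_of_nonneg_left h2.le hη.le
      have h4 : 0 ≤ η * (A * (ε * x)) := mul_nonneg hη.le hAe
      have h5 : 0 ≤ 1 / (ρ - 1) * ((1 + A) * (ε * x)) := by
        have : 0 ≤ 1 + A := by linarith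
        positivity
      linarith
  rw [abs_le]
  have hq : 0 ≤ 1 / (ρ - 1) := by positivity
  have hAe : 0 ≤ A * (ε * x) := mul_nonneg hA hex
  have hK1q : 0 ≤ η * K1 + 2 := by
    rw [hK1]
    have : 0 ≤ η * (1 + 2 * (2 * ρ - 1) / ((ρ - 1) * η)) := mul_nonneg hη.le (by linarith)
    linarith
  constructor
  · have h1 : 0 ≤ (η * K1 + 2) * ((1 + A) * (ε * x)) := by
      have : 0 ≤ 1 + A := by linarith
      positivity
    linarith
  · have h1 : 0 ≤ (η * K1 + 2) * (A * (ε * x)) := mul_nonneg hK1q hAe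
    have h2 : 0 ≤ (η + 1 / (ρ - 1)) * ((1 + A) * (ε * x)) := by
      have : 0 ≤ 1 + A := by linarith
      positivity
    linarith

end Pool.Agent.H404
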