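import Mathlib
import Pool.Agent.H979.GW.StmA

/-!
# GW M2: second moments of sums over children
-/

set_option autoImplicit false

open MeasureTheory ProbabilityTheory Filter Topology Set
open scoped ENNReal NNReal
open Pool.Agent.H979.GW

namespace Pool.Agent.H404

variable {Q : Type} [Fintype Q] [DecidableEq Q]

/-- sums over a fixed set of children -/
theorem gw_inner (q : Q → Measure (Q → ℕ)) [∀ a, IsProbabilityMeasure (q a)]
    (g : Q → Env Q → ℝ) (hgm : ∀ b, Measurable (g b)) (hg : ∀ b, MemLp (g b) 2 (law q b))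
    (s : Finset (Q × ℕ)) :
    MemLp (fun y : Q × ℕ → Env Q => ∑ c ∈ s, g c.1 (y c)) 2
      (Measure.infinitePi fun c : Q × ℕ => law q c.1) ∧
    ∫ y, (∑ c ∈ s, g c.1 (y c)) ^ 2 ∂(Measure.infinitePi fun c : Q × ℕ => law q c.1) =
      ∑ c ∈ s, (∫ ω, g c.1 ω ^ 2 ∂(law q c.1) - (∫ ω, g c.1 ω ∂(law q c.1)) ^ 2) +
      (∑ c ∈ s, ∫ ω, g c.1 ω ∂(law q c.1)) ^ 2 := by
  set P := Measure.infinitePi fun c : Q × ℕ => law q c.1 with hP
  have mp : ∀ c : Q × ℕ, MeasurePreserving (Function.eval c) P (law q c.1) := fun c =>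
    measurePreserving_eval_infinitePi _ c
  have hX : ∀ c : Q × ℕ, MemLp (fun y : Q × ℕ → Env Q => g c.1 (y c)) 2 P := fun c =>
    (hg c.1).comp_measurePreserving (mp c)
  have hind : iIndepFun (fun (c : Q × ℕ) (y : Q × ℕ → Env Q) => g c.1 (y c)) P :=
    iIndepFun_infinitePi (P := fun c : Q × ℕ => law q c.1) (X := fun c => g c.1)
      (fun c => hgm c.1)
  have hE : ∀ (c : Q × ℕ) (F : Env Q → ℝ), Measurable F →
      ∫ y, F (y c) ∂P = ∫ ω, F ω ∂(law q c.1) := by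
    intro c F hF
    rw [← (mp c).map_eq, integral_map (measurable_pi_apply c).aemeasurable
      hF.aestronglyMeasurable]
  have hS : MemLp (fun y : Q × ℕ → Env Q => ∑ c ∈ s, g c.1 (y c)) 2 P :=
    memLp_finsetSum s fun c _ => hX c
  refine ⟨hS, ?_⟩
  have hvar := IndepFun.variance_sum (μ := P) (s := s)
    (X := fun (c : Q × ℕ) (y : Q × ℕ → Env Q) => g c.1 (y c)) (fun c _ => hX c)
    (fun c _ d _ hcd => hind.indepFun hcd)
  have hsum : (∑ c ∈ s, fun y : Q × ℕ → Env Q => g c.1 (y c)) =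
      fun y : Q × ℕ → Env Q => ∑ c ∈ s, g c.1 (y c) := by
    ext y
    simp
  rw [hsum, variance_eq_sub hS] at hvar
  have h3 : ∀ c ∈ s, variance (fun y : Q × ℕ → Env Q => g c.1 (y c)) P =
      ∫ ω, g c.1 ω ^ 2 ∂(law q c.1) - (∫ ω, g c.1 ω ∂(law q c.1)) ^ 2 := by
    intro c _
    rw [variance_eq_sub (hX c)]
    have e1 := hE c (fun ω => g c.1 ω ^ 2) ((hgm c.1).pow_const 2)
    have e2 := hE c (g c.1) (hgm c.1)
    simp only [Pi.pow_apply]
    rw [e1, e2]
  rw [Finset.sum_congr rfl h3] at hvar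
  have h4 : ∫ y, ∑ c ∈ s, g c.1 (y c) ∂P = ∑ c ∈ s, ∫ ω, g c.1 ω ∂(law q c.1) := by
    rw [integral_finsetSum s (fun c _ => (hX c).integrable one_le_two)]
    exact Finset.sum_congr rfl fun c _ => hE c (g c.1) (hgm c.1)
  simp only [Pi.pow_apply] at hvar
  rw [h4] at hvar
  linarith

theorem sum_chd_fst (x : Q → ℕ) (h : Q → ℝ) : ∑ c ∈ chd x, h c.1 = ∑ b, (x b : ℝ) * h b := by
  rw [sum_chd x (fun c => h c.1)]
  simp

theorem gw_m2 (q : Q → Measure (Q → ℕ)) [∀ a, IsProbabilityMeasure (q a)]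
    (hm2 : ∀ a b, Integrable (fun x : Q → ℕ => (x b : ℝ) ^ 2) (q a))
    (h1 : S_SH q) (h2 : S_DEC q) : S_M2 q := by
  intro f hf a
  choose g hgs hfg using fun b => (hf b).1
  have hgm : ∀ b, Measurable (g b) := fun b => (hgs b).measurable
  have hg : ∀ b, MemLp (g b) 2 (law q b) := fun b => (memLp_congr_ae (hfg b)).1 (hf b)
  have hae : TT f a =ᵐ[law q a] TT g a := by
    have h3 : ∀ᵐ ω ∂(law q a), ∀ c : Q × ℕ, f c.1 (sh [c] ω) = g c.1 (sh [c] ω) := by
      rw [ae_all_iff]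
      intro c
      have h4 : (law q a).map (sh [c]) = law q c.1 := (h1 a [c]).2
      exact ae_of_ae_map (h1 a [c]).1.aemeasurable (by rw [h4]; exact hfg c.1)
    filter_upwards [h3] with ω hω
    exact Finset.sum_congr rfl fun c _ => hω c
  have hf1 : ∀ b, ∫ ω, f b ω ∂(law q b) = ∫ ω, g b ω ∂(law q b) := fun b =>
    integral_congr_ae (hfg b)
  have hf2 : ∀ b, ∫ ω, f b ω ^ 2 ∂(law q b) = ∫ ω, g b ω ^ 2 ∂(law q b) := fun b => by
    refine integral_congr_ae ?_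
    filter_upwards [hfg b] with ω hω
    rw [hω]
  simp only [hf1, hf2]
  set P := Measure.infinitePi fun c : Q × ℕ => law q c.1 with hP
  set Φ : Env Q → (Q → ℕ) × (Q × ℕ → Env Q) := fun ω => (ω [], fun c : Q × ℕ => sh [c] ω)
    with hΦ
  have hΦm : Measurable Φ := (measurable_pi_apply ([] : Vx Q)).prodMk
    (measurable_pi_lambda _ fun c => (h1 a [c]).1)
  set G : (Q → ℕ) × (Q × ℕ → Env Q) → ℝ := fun z => ∑ c ∈ chd z.1, g c.1 (z.2 c) with hG
  have hGm : Measurable G := by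
    refine measurable_from_prod_countable_right fun x => ?_
    show Measurable fun y : Q × ℕ → Env Q => ∑ c ∈ chd x, g c.1 (y c)
    exact Finset.measurable_fun_sum _ fun (c : Q × ℕ) _ =>
      (hgm c.1).comp (measurable_pi_apply c)
  have hmap : (law q a).map Φ = (q a).prod P := h2 a
  -- the inner integrals
  set D : Q → ℝ := fun b => ∫ ω, g b ω ^ 2 ∂(law q b) - (∫ ω, g b ω ∂(law q b)) ^ 2 with hD
  set ψ : Q → ℝ := fun b => ∫ ω, g b ω ∂(law q b) with hψ
  have hin : ∀ x : Q → ℕ, Integrable (fun y => G (x, y) ^ 2) P ∧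
      ∫ y, G (x, y) ^ 2 ∂P = ∑ b, (x b : ℝ) * D b + (∑ b, (x b : ℝ) * ψ b) ^ 2 := by
    intro x
    obtain ⟨k1, k2⟩ := gw_inner q g hgm hg (chd x)
    refine ⟨k1.integrable_sq, ?_⟩
    have e : ∫ y, G (x, y) ^ 2 ∂P = _ := k2
    rw [e, ← sum_chd_fst x D, ← sum_chd_fst x ψ]
  have hxL : ∀ b, MemLp (fun x : Q → ℕ => (x b : ℝ)) 2 (q a) := fun b =>
    (memLp_two_iff_integrable_sq (Measurable.of_discrete).aestronglyMeasurable).2 (hm2 a b)
  have hxI : ∀ b, Integrable (fun x : Q → ℕ => (x b : ℝ)) (q a) := fun b =>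
    (hxL b).integrable one_le_two
  have hI1 : Integrable (fun x : Q → ℕ => ∑ b, (x b : ℝ) * D b) (q a) :=
    integrable_finsetSum _ fun b _ => (hxI b).mul_const _
  have hI2 : Integrable (fun x : Q → ℕ => (∑ b, (x b : ℝ) * ψ b) ^ 2) (q a) := by
    have h5 : MemLp (fun x : Q → ℕ => ∑ b, (x b : ℝ) * ψ b) 2 (q a) :=
      memLp_finsetSum _ fun b _ => (hxL b).mul_const _
    exact h5.integrable_sq
  have hGint : Integrable (fun z => G z ^ 2) ((q a).prod P) := by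
    rw [integrable_prod_iff (hGm.pow_const 2).aestronglyMeasurable]
    refine ⟨Eventually.of_forall fun x => (hin x).1, ?_⟩
    have e : (fun x : Q → ℕ => ∫ y, ‖G (x, y) ^ 2‖ ∂P) =
        fun x => ∑ b, (x b : ℝ) * D b + (∑ b, (x b : ℝ) * ψ b) ^ 2 := by
      ext x
      rw [← (hin x).2]
      refine integral_congr_ae (Eventually.of_forall fun y => ?_)
      exact Real.norm_of_nonneg (sq_nonneg _)
    rw [e]
    exact hI1.add hI2
  have hGL : MemLp G 2 ((q a).prod P) :=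
    (memLp_two_iff_integrable_sq hGm.aestronglyMeasurable).2 hGint
  have hTG : TT g a = G ∘ Φ := rfl
  have hTL : MemLp (TT g a) 2 (law q a) := by
    rw [hTG]
    rw [← hmap] at hGL
    exact hGL.comp_of_map hΦm.aemeasurable
  refine ⟨(memLp_congr_ae hae).2 hTL, ?_⟩
  have e1 : ∫ ω, TT f a ω ^ 2 ∂(law q a) = ∫ ω, TT g a ω ^ 2 ∂(law q a) := by
    refine integral_congr_ae ?_
    filter_upwards [hae] with ω hω
    rw [hω]
  have e2 : ∫ ω, TT g a ω ^ 2 ∂(law q a) = ∫ z, G z ^ 2 ∂((q a).prod P) := by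
    rw [← hmap, integral_map hΦm.aemeasurable (hGm.pow_const 2).aestronglyMeasurable]
    rfl
  rw [e1, e2, integral_prod _ hGint]
  have e3 : ∫ x, ∫ y, G (x, y) ^ 2 ∂P ∂(q a) =
      ∫ x : Q → ℕ, (∑ b, (x b : ℝ) * D b + (∑ b, (x b : ℝ) * ψ b) ^ 2) ∂(q a) :=
    integral_congr_ae (Eventually.of_forall fun x => (hin x).2)
  rw [e3, integral_add hI1 hI2, integral_finsetSum _ fun b _ => (hxI b).mul_const _]
  congr 1
  refine Finset.sum_congr rfl fun b _ => ?_
  rw [integral_mul_const]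
  rfl

end Pool.Agent.H404
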