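import Pool.Agent.H465.OC.StmC
import Pool.Agent.H476.OCLSBasic

/-!
# Project OC (MP_f38b71_nt), task C6: the modular equation
-/

set_option autoImplicit false

noncomputable section

open UpperHalfPlane hiding I
open ModularForm MatrixGroups EisensteinSeries
open Pool.Agent.Q279.SC Pool.Agent.Q237.SX Pool.Agent.H465.OC

namespace Pool.Agent.H404.OCHeckePoly

open Polynomial (aeval)

/-- the discriminant -/
abbrev Dl (τ : ℍ) : ℂ := ModularForm.discriminant τ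

/-! ### Monomials in `Δ`, `E_4`, `E_6` -/

/-- the exponent of `E_4` in `b_i` -/
def ex4 : Fin 6 → ℕ := ![0, 1, 0, 2, 1, 2]

/-- the exponent of `E_6` in `b_i` -/
def ex6 : Fin 6 → ℕ := ![0, 0, 1, 0, 1, 1]

theorem bC_eq (i : Fin 6) (τ : ℍ) : bC i τ = E₄ τ ^ ex4 i * E₆ τ ^ ex6 i := by
  fin_cases i <;> simp [bC, ex4, ex6]

theorem rr_eq (i : Fin 6) : rr i = 4 * ex4 i + 6 * ex6 i := by
  fin_cases i <;> rfl

theorem Dl_ne (τ : ℍ) : Dl τ ≠ 0 := discriminant_ne_zero τ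

theorem j4 (τ : ℍ) : E₄ τ ^ 3 = jC τ * Dl τ := by
  unfold jC
  rw [div_mul_cancel₀ _ (discriminant_ne_zero τ)]

theorem j6 (τ : ℍ) : E₆ τ ^ 2 = (jC τ - 1728) * Dl τ := by
  have h := j4 τ
  have h2 : Dl τ = _ := discriminant_eq_E₄_cube_sub_E₆_sq τ
  linear_combination h + 1728 * h2

theorem exi (b c : ℕ) (hb : b < 3) (hc : c < 2) : ∃ i : Fin 6, ex4 i = b ∧ ex6 i = c := by
  interval_cases b <;> interval_cases c
  · exact ⟨0, rfl, rfl⟩
  · exact ⟨2, rfl, rfl⟩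
  · exact ⟨1, rfl, rfl⟩
  · exact ⟨4, rfl, rfl⟩
  · exact ⟨3, rfl, rfl⟩
  · exact ⟨5, rfl, rfl⟩

theorem mono (b c : ℕ) : ∃ (i : Fin 6) (n : ℕ) (g : Polynomial ℚ),
    4 * b + 6 * c = rr i + 12 * n ∧
    ∀ τ : ℍ, E₄ τ ^ b * E₆ τ ^ c = bC i τ * Dl τ ^ n * aeval (jC τ) g := by
  obtain ⟨i, h1, h2⟩ := exi (b % 3) (c % 2) (Nat.mod_lt _ (by norm_num))
    (Nat.mod_lt _ (by norm_num))
  refine ⟨i, b / 3 + c / 2,
    Polynomial.X ^ (b / 3) * (Polynomial.X - Polynomial.C 1728) ^ (c / 2), ?_, ?_⟩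
  · rw [rr_eq, h1, h2]
    omega
  · intro τ
    have e1 : E₄ τ ^ b = E₄ τ ^ ex4 i * (jC τ * Dl τ) ^ (b / 3) := by
      rw [← j4, h1, ← pow_mul, ← pow_add, Nat.mod_add_div]
    have e2 : E₆ τ ^ c = E₆ τ ^ ex6 i * ((jC τ - 1728) * Dl τ) ^ (c / 2) := by
      rw [← j6, h2, ← pow_mul, ← pow_add, Nat.mod_add_div]
    have e3 : aeval (jC τ) (Polynomial.X ^ (b / 3) * (Polynomial.X - Polynomial.C 1728) ^ (c / 2) :
        Polynomial ℚ) = jC τ ^ (b / 3) * (jC τ - 1728) ^ (c / 2) := by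
      rw [map_mul, map_pow, map_pow, map_sub, Polynomial.aeval_X, Polynomial.aeval_C, map_ofNat]
    rw [e1, e2, e3, bC_eq, mul_pow, mul_pow, pow_add]
    ring

theorem monoG (a b c : ℕ) : ∃ (i : Fin 6) (s : ℤ) (g : Polynomial ℚ),
    wt i s = 12 * a + 4 * b + 6 * c ∧
    ∀ τ : ℍ, Dl τ ^ a * E₄ τ ^ b * E₆ τ ^ c = fC i s g τ := by
  obtain ⟨i, n, g, h1, h2⟩ := mono b c
  refine ⟨i, ((a + n : ℕ) : ℤ), g, ?_, fun τ => ?_⟩
  · unfold wt
    push_cast
    omega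
  · unfold fC
    rw [mul_assoc, h2, zpow_natCast, pow_add]
    ring

theorem rr_dvd (i : Fin 6) (h : ∃ k : ℤ, (rr i : ℤ) = 12 * k) : i = 0 := by
  obtain ⟨k, hk⟩ := h
  fin_cases i
  · rfl
  all_goals
    exfalso
    simp [rr] at hk
    omega

theorem zeroW (i : Fin 6) (s : ℤ) (Q : Polynomial ℚ) (b c m : ℕ)
    (h : wt i s + 4 * b + 6 * c = 12 * m) : ∃ R : Polynomial ℚ,
    ∀ τ : ℍ, fC i s Q τ * (E₄ τ ^ b * E₆ τ ^ c / Dl τ ^ m) = aeval (jC τ) R := by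
  obtain ⟨i', n, g, h1, h2⟩ := mono (ex4 i + b) (ex6 i + c)
  have h3 : i' = 0 := by
    refine rr_dvd i' ⟨m - n - s, ?_⟩
    have h4 := rr_eq i
    unfold wt at h
    zify at h1 h4
    linarith
  have h5 : (n : ℤ) + s = m := by
    have h4 := rr_eq i
    have h6 : rr i' = 0 := by
      rw [h3]
      rfl
    unfold wt at h
    zify at h1 h4 h6
    linarith
  refine ⟨g * Q, fun τ => ?_⟩
  have h6 : E₄ τ ^ (ex4 i + b) * E₆ τ ^ (ex6 i + c) = Dl τ ^ n * aeval (jC τ) g := by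
    rw [h2, h3]
    have h7 : bC 0 τ = 1 := rfl
    rw [h7, one_mul]
  have h7 := Dl_ne τ
  have h8 : Dl τ ^ (n : ℤ) * Dl τ ^ s = Dl τ ^ (m : ℤ) := by
    rw [← zpow_add₀ h7, h5]
  rw [zpow_natCast, zpow_natCast] at h8
  unfold fC
  rw [bC_eq, map_mul]
  have h9 : Dl τ ^ m ≠ 0 := pow_ne_zero _ h7
  rw [mul_div_assoc', div_eq_iff h9, ← h8]
  rw [pow_add, pow_add] at h6
  change E₄ τ ^ ex4 i * E₆ τ ^ ex6 i * Dl τ ^ s * aeval (jC τ) Q * (E₄ τ ^ b * E₆ τ ^ c) = _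
  linear_combination Dl τ ^ s * aeval (jC τ) Q * h6

/-! ### The power sums -/

theorem term (hq : HeckeQ) (p : ℕ) [hp : Fact p.Prime] (a b c : ℕ) : ∃ R : Polynomial ℚ,
    ∀ τ : ℍ, (Dl (mulP p τ) / Dl τ) ^ a * (E₄ (mulP p τ) * E₄ τ ^ 2 / Dl τ) ^ b *
        (E₆ (mulP p τ) * E₆ τ / Dl τ) ^ c +
      ∑ k ∈ Finset.range p, (Dl (divP p k τ) / p ^ 12 / Dl τ) ^ a *
        (E₄ (divP p k τ) / p ^ 4 * E₄ τ ^ 2 / Dl τ) ^ b *
        (E₆ (divP p k τ) / p ^ 6 * E₆ τ / Dl τ) ^ c = aeval (jC τ) R := by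
  obtain ⟨i, s, g, h1, h2⟩ := monoG a b c
  obtain ⟨Q, -, hQ⟩ := hq p i s g
  obtain ⟨R, hR⟩ := zeroW i s Q (2 * b) c (a + b + c) (by rw [h1]; push_cast; ring)
  refine ⟨R, fun τ => ?_⟩
  have hp0 : (p : ℂ) ≠ 0 := by exact_mod_cast hp.out.ne_zero
  have hD := Dl_ne τ
  rw [← hR, ← hQ, h1, add_mul]
  have e0 : (p : ℂ) ^ (-(12 * (a : ℤ) + 4 * b + 6 * c)) = ((p : ℂ) ^ (12 * a + 4 * b + 6 * c))⁻¹ := by
    rw [zpow_neg]
    congr 1
  have e1 : ∀ x y z u v w : ℂ, w ≠ 0 → (x / w) ^ a * (y * u ^ 2 / w) ^ b * (z * v / w) ^ c =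
      x ^ a * y ^ b * z ^ c * (u ^ (2 * b) * v ^ c / w ^ (a + b + c)) := by
    intro x y z u v w hw
    rw [div_pow, div_pow, div_pow, mul_pow, mul_pow, ← pow_mul, pow_add, pow_add]
    field_simp
  rw [e1 _ _ _ _ _ _ hD, h2]
  congr 1
  rw [e0, Finset.mul_sum, Finset.sum_mul]
  refine Finset.sum_congr rfl fun k _ => ?_
  rw [e1 _ _ _ _ _ _ hD, ← h2, div_pow, div_pow, div_pow, ← pow_mul, ← pow_mul, ← pow_mul,
    pow_add (p : ℂ), pow_add (p : ℂ)]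
  field_simp

theorem tri (m : ℕ) (x y z : ℂ) : (x + y + z) ^ m = ∑ i ∈ Finset.range (m + 1),
    ∑ j ∈ Finset.range (i + 1), x ^ j * y ^ (i - j) * (i.choose j : ℂ) * z ^ (m - i) *
      (m.choose i : ℂ) := by
  rw [add_pow]
  refine Finset.sum_congr rfl fun i _ => ?_
  rw [add_pow, Finset.sum_mul, Finset.sum_mul]

theorem psum_poly (hq : HeckeQ) (p : ℕ) [hp : Fact p.Prime] (A B C : ℤ) (m : ℕ) :
    ∃ q : Polynomial ℚ, ∀ τ : ℍ, thI p A B C τ ^ m +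
      ∑ b ∈ Finset.range p, thB p A B C b τ ^ m = aeval (jC τ) q := by
  choose R hR using term hq p
  refine ⟨∑ i ∈ Finset.range (m + 1), ∑ j ∈ Finset.range (i + 1),
    Polynomial.C ((A : ℚ) ^ j * (B : ℚ) ^ (i - j) * (C : ℚ) ^ (m - i) * (i.choose j : ℚ) *
      (m.choose i : ℚ)) * R j (i - j) (m - i), fun τ => ?_⟩
  have key : ∀ x y z : ℂ, (A * x + B * y + C * z) ^ m = ∑ i ∈ Finset.range (m + 1),
      ∑ j ∈ Finset.range (i + 1), ((A : ℂ) ^ j * (B : ℂ) ^ (i - j) * (C : ℂ) ^ (m - i) *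
        (i.choose j : ℂ) * (m.choose i : ℂ)) * (x ^ j * y ^ (i - j) * z ^ (m - i)) := by
    intro x y z
    rw [tri]
    refine Finset.sum_congr rfl fun i _ => Finset.sum_congr rfl fun j _ => ?_
    rw [mul_pow, mul_pow, mul_pow]
    ring
  have eI : thI p A B C τ = A * (Dl (mulP p τ) / Dl τ) + B * (E₄ (mulP p τ) * E₄ τ ^ 2 / Dl τ) +
      C * (E₆ (mulP p τ) * E₆ τ / Dl τ) := by
    unfold thI
    ring
  have eB : ∀ b, thB p A B C b τ = A * (Dl (divP p b τ) / p ^ 12 / Dl τ) +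
      B * (E₄ (divP p b τ) / p ^ 4 * E₄ τ ^ 2 / Dl τ) +
      C * (E₆ (divP p b τ) / p ^ 6 * E₆ τ / Dl τ) := by
    intro b
    unfold thB
    ring
  have eS : ∑ b ∈ Finset.range p, thB p A B C b τ ^ m = ∑ b ∈ Finset.range p,
      ∑ i ∈ Finset.range (m + 1), ∑ j ∈ Finset.range (i + 1), ((A : ℂ) ^ j * (B : ℂ) ^ (i - j) *
        (C : ℂ) ^ (m - i) * (i.choose j : ℂ) * (m.choose i : ℂ)) *
        ((Dl (divP p b τ) / p ^ 12 / Dl τ) ^ j *
        (E₄ (divP p b τ) / p ^ 4 * E₄ τ ^ 2 / Dl τ) ^ (i - j) *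
        (E₆ (divP p b τ) / p ^ 6 * E₆ τ / Dl τ) ^ (m - i)) := by
    refine Finset.sum_congr rfl fun b _ => ?_
    rw [eB b, key]
  rw [eI, key, eS, Finset.sum_comm, ← Finset.sum_add_distrib, map_sum]
  refine Finset.sum_congr rfl fun i _ => ?_
  rw [Finset.sum_comm, ← Finset.sum_add_distrib, map_sum]
  refine Finset.sum_congr rfl fun j _ => ?_
  rw [← Finset.mul_sum, ← mul_add, hR, map_mul, Polynomial.aeval_C]
  congr 1
  rw [map_mul, map_mul, map_mul, map_mul, map_pow, map_pow, map_pow, map_intCast, map_intCast,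
    map_intCast, map_natCast, map_natCast]

/-! ### Newton's identities -/

theorem newton {ι : Type} [Fintype ι] (x : ℍ → ι → ℂ) (q : ℕ → Polynomial ℚ)
    (hq : ∀ m τ, ∑ i, x τ i ^ m = aeval (jC τ) (q m)) (k : ℕ) : ∃ g : Polynomial ℚ,
    ∀ τ, MvPolynomial.aeval (x τ) (MvPolynomial.esymm ι ℚ k) = aeval (jC τ) g := by
  classical
  induction k using Nat.strong_induction_on with
  | _ k ih =>
    rcases Nat.eq_zero_or_pos k with rfl | hk
    · refine ⟨1, fun τ => ?_⟩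
      rw [MvPolynomial.esymm_zero, map_one, map_one]
    · choose! g hg using ih
      refine ⟨Polynomial.C ((k : ℚ)⁻¹) * ((-1) ^ (k + 1) *
        ∑ a ∈ Finset.HasAntidiagonal.antidiagonal k with a.1 < k, (-1) ^ a.1 * g a.1 * q a.2), fun τ => ?_⟩
      have h1 := congrArg (MvPolynomial.aeval (x τ)) (MvPolynomial.mul_esymm_eq_sum ι ℚ k)
      have hk0 : (k : ℂ) ≠ 0 := by exact_mod_cast hk.ne'
      rw [map_mul, map_natCast, map_mul, map_pow, map_neg, map_one, map_sum] at h1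
      rw [map_mul, Polynomial.aeval_C, map_mul, map_pow, map_neg, map_one, map_sum, map_inv₀,
        map_natCast, ← mul_right_inj' hk0, h1, ← mul_assoc, mul_inv_cancel₀ hk0, one_mul]
      congr 1
      refine Finset.sum_congr rfl fun a ha => ?_
      rw [Finset.mem_filter] at ha
      have h2 : MvPolynomial.aeval (x τ) (MvPolynomial.psum ι ℚ a.2) = aeval (jC τ) (q a.2) := by
        rw [← hq, MvPolynomial.psum, map_sum]
        refine Finset.sum_congr rfl fun i _ => ?_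
        rw [map_pow, MvPolynomial.aeval_X]
      rw [map_mul, map_mul, map_pow, map_neg, map_one, map_mul, map_mul, map_pow, map_neg,
        map_one, hg a.1 ha.2, h2]

theorem vieta {n : ℕ} (x : Fin n → ℂ) (z : ℂ) : ∑ k ∈ Finset.range (n + 1),
    (-1) ^ k * MvPolynomial.aeval x (MvPolynomial.esymm (Fin n) ℚ k) * z ^ (n - k) =
      ∏ i, (z - x i) := by
  have h := congrArg (Polynomial.eval z)
    (Multiset.prod_X_sub_X_eq_sum_esymm (Finset.univ.val.map x))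
  have h1 : (Multiset.map (fun t => Polynomial.X - Polynomial.C t)
      (Finset.univ.val.map x)).prod = ∏ i, (Polynomial.X - Polynomial.C (x i)) := by
    rw [Multiset.map_map]
    rfl
  rw [h1, Polynomial.eval_prod, Polynomial.eval_finsetSum, Multiset.card_map] at h
  have h2 : Multiset.card (Finset.univ : Finset (Fin n)).val = n := by
    rw [Finset.card_val, Finset.card_univ, Fintype.card_fin]
  rw [h2] at h
  have h3 : ∏ i, (z - x i) = ∏ i, Polynomial.eval z (Polynomial.X - Polynomial.C (x i)) := by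
    refine Finset.prod_congr rfl fun i _ => ?_
    rw [Polynomial.eval_sub, Polynomial.eval_X, Polynomial.eval_C]
  rw [h3, h]
  refine Finset.sum_congr rfl fun k _ => ?_
  rw [MvPolynomial.aeval_esymm_eq_multiset_esymm, Polynomial.eval_mul, Polynomial.eval_pow,
    Polynomial.eval_neg, Polynomial.eval_one, Polynomial.eval_mul, Polynomial.eval_C,
    Polynomial.eval_pow, Polynomial.eval_X, mul_assoc]

theorem second (hq : HeckeQ) (p : ℕ) [hp : Fact p.Prime] (A B C : ℤ) :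
    ∃ g : ℕ → Polynomial ℚ, ∀ (τ : ℍ) (z : ℂ),
    ∑ k ∈ Finset.range (p + 2), (-1 : ℂ) ^ k * aeval (jC τ) (g k) * z ^ (p + 1 - k) =
      (z - thI p A B C τ) * ∏ b ∈ Finset.range p, (z - thB p A B C b τ) := by
  choose q hq' using psum_poly hq p A B C
  have h1 : ∀ (m : ℕ) (τ : ℍ), ∑ i : Fin (p + 1),
      (Fin.cons (thI p A B C τ) (fun b : Fin p => thB p A B C b τ) : Fin (p + 1) → ℂ) i ^ m =
        aeval (jC τ) (q m) := by
    intro m τ
    rw [Fin.sum_univ_succ, ← hq' m τ, Finset.sum_range]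
    rfl
  choose g hg using newton
    (fun τ => (Fin.cons (thI p A B C τ) (fun b : Fin p => thB p A B C b τ) : Fin (p + 1) → ℂ))
    q h1
  refine ⟨g, fun τ z => ?_⟩
  have h2 := vieta
    (Fin.cons (thI p A B C τ) (fun b : Fin p => thB p A B C b τ) : Fin (p + 1) → ℂ) z
  rw [Fin.prod_univ_succ] at h2
  simp only [hg] at h2
  rw [h2, Finset.prod_range]
  rfl

/-! ### The Laurent series -/

theorem lmap_mul (x y : LaurentSeries ℚ) : lmap (algebraMap ℚ ℂ) (x * y) =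
    lmap (algebraMap ℚ ℂ) x * lmap (algebraMap ℚ ℂ) y :=
  HahnSeries.map_mul ((algebraMap ℚ ℂ : ℚ →+* ℂ) : ℚ →ₙ+* ℂ)

theorem lmap_add (x y : LaurentSeries ℚ) : lmap (algebraMap ℚ ℂ) (x + y) =
    lmap (algebraMap ℚ ℂ) x + lmap (algebraMap ℚ ℂ) y := by
  ext n
  unfold lmap
  rw [HahnSeries.coeff_add, HahnSeries.map_coeff, HahnSeries.map_coeff, HahnSeries.map_coeff,
    HahnSeries.coeff_add, map_add]

theorem lmap_inj {x y : LaurentSeries ℚ}
    (h : lmap (algebraMap ℚ ℂ) x = lmap (algebraMap ℚ ℂ) y) : x = y := by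
  ext n
  have h1 := congrArg (fun s : LaurentSeries ℂ => s.coeff n) h
  unfold lmap at h1
  simp only [HahnSeries.map_coeff] at h1
  exact (algebraMap ℚ ℂ).injective h1

theorem lmap_VV (p : ℕ) [hp : Fact p.Prime] (x : LaurentSeries ℚ) :
    VV p ℂ (lmap (algebraMap ℚ ℂ) x) = lmap (algebraMap ℚ ℂ) (VV p ℚ x) := by
  ext n
  by_cases hn : (p : ℤ) ∣ n
  · obtain ⟨m, rfl⟩ := hn
    unfold lmap
    rw [HahnSeries.map_coeff, Pool.Agent.H476.OCLSBasic.VV_mul,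
      Pool.Agent.H476.OCLSBasic.VV_mul, HahnSeries.map_coeff]
  · unfold lmap
    rw [HahnSeries.map_coeff, Pool.Agent.H476.OCLSBasic.VV_not _ _ _ hn,
      Pool.Agent.H476.OCLSBasic.VV_not _ _ _ hn, map_zero]

/-- functions with a Laurent series with rational coefficients -/
def HR (F : ℍ → ℂ) (s : LaurentSeries ℚ) : Prop := HL F (lmap (algebraMap ℚ ℂ) s)

theorem HR.add (hb : HLB) {F G : ℍ → ℂ} {s t : LaurentSeries ℚ} (h1 : HR F s) (h2 : HR G t) :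
    HR (fun τ => F τ + G τ) (s + t) := by
  have h := (hb.2.1 F G _ _ h1 h2).1
  unfold HR
  rw [lmap_add]
  exact h

theorem HR.mul (hb : HLB) {F G : ℍ → ℂ} {s t : LaurentSeries ℚ} (h1 : HR F s) (h2 : HR G t) :
    HR (fun τ => F τ * G τ) (s * t) := by
  have h := (hb.2.1 F G _ _ h1 h2).2
  unfold HR
  rw [lmap_mul]
  exact h

theorem HR.V (hb : HLB) (p : ℕ) [hp : Fact p.Prime] {F : ℍ → ℂ} {s : LaurentSeries ℚ}
    (h1 : HR F s) : HR (fun τ => F (mulP p τ)) (VV p ℚ s) := by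
  have h := (hb.2.2.2.1 p F _ h1).1
  unfold HR
  rw [← lmap_VV]
  exact h

theorem HR.poly (hb : HLB) (g : Polynomial ℚ) : HR (fun τ => aeval (jC τ) g) (aeval (jj ℚ) g) := by
  have h := (hb.2.2.2.2 0 0 g).2
  have e1 : fL 0 0 g = aeval (jj ℚ) g := by
    unfold fL
    have h1 : ls (bb ℚ 0) = 1 := map_one (HahnSeries.ofPowerSeries ℤ ℚ)
    rw [h1, zpow_zero, one_mul, one_mul]
  have e2 : fC 0 0 g = fun τ => aeval (jC τ) g := by
    funext τ
    unfold fC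
    have h1 : bC 0 τ = 1 := rfl
    rw [h1, zpow_zero, one_mul, one_mul]
  rw [e1, e2] at h
  exact h

theorem HR.int (hb : HLB) (n : ℤ) : HR (fun _ => (n : ℂ)) (n : LaurentSeries ℚ) := by
  have h := HR.poly hb (n : Polynomial ℚ)
  simp only [map_intCast] at h
  exact h

theorem HR.pow (hb : HLB) {F : ℍ → ℂ} {s : LaurentSeries ℚ} (h1 : HR F s) (n : ℕ) :
    HR (fun τ => F τ ^ n) (s ^ n) := by
  induction n with
  | zero =>
    have h := HR.int hb 1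
    simp only [Int.cast_one] at h
    simp only [pow_zero]
    exact h
  | succ n ih =>
    simp only [pow_succ]
    exact ih.mul hb h1

theorem HR.sum (hb : HLB) (n : ℕ) {F : ℕ → ℍ → ℂ} {s : ℕ → LaurentSeries ℚ}
    (h1 : ∀ k, HR (F k) (s k)) :
    HR (fun τ => ∑ k ∈ Finset.range n, F k τ) (∑ k ∈ Finset.range n, s k) := by
  induction n with
  | zero =>
    have h := HR.int hb 0
    simp only [Int.cast_zero] at h
    simp only [Finset.range_zero, Finset.sum_empty]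
    exact h
  | succ n ih =>
    simp only [Finset.sum_range_succ]
    exact ih.add hb (h1 n)

theorem fC_one (i : Fin 6) (s : ℤ) (τ : ℍ) : fC i s 1 τ = bC i τ * Dl τ ^ s := by
  unfold fC
  rw [map_one, mul_one]

theorem fL_one (i : Fin 6) (s : ℤ) : fL i s 1 = ls (bb ℚ i) * ls (qD ℚ) ^ s := by
  unfold fL
  rw [map_one, mul_one]

theorem HR.basic (hb : HLB) (i : Fin 6) (s : ℤ) {F : ℍ → ℂ} {x : LaurentSeries ℚ}
    (h1 : ∀ τ, bC i τ * Dl τ ^ s = F τ) (h2 : ls (bb ℚ i) * ls (qD ℚ) ^ s = x) : HR F x := by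
  have h := (hb.2.2.2.2 i s 1).2
  have e : fC i s 1 = F := funext fun τ => (fC_one i s τ).trans (h1 τ)
  rw [e, fL_one, h2] at h
  exact h

theorem HR.D (hb : HLB) : HR (fun τ => Dl τ) (ls (qD ℚ)) := by
  refine HR.basic hb 0 1 (fun τ => ?_) ?_
  · have h1 : bC 0 τ = 1 := rfl
    rw [h1, zpow_one, one_mul]
  · have h1 : ls (bb ℚ 0) = 1 := map_one (HahnSeries.ofPowerSeries ℤ ℚ)
    rw [h1, zpow_one, one_mul]

theorem HR.Dinv (hb : HLB) : HR (fun τ => (Dl τ)⁻¹) (Di ℚ) := by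
  refine HR.basic hb 0 (-1) (fun τ => ?_) ?_
  · have h1 : bC 0 τ = 1 := rfl
    rw [h1, zpow_neg_one, one_mul]
  · have h1 : ls (bb ℚ 0) = 1 := map_one (HahnSeries.ofPowerSeries ℤ ℚ)
    rw [h1, zpow_neg_one, one_mul]
    exact inv_eq_of_mul_eq_one_right Pool.Agent.H476.OCLSBasic.qD_Di

theorem HR.e4 (hb : HLB) : HR (fun τ => E₄ τ) (ls (q4 ℚ)) := by
  refine HR.basic hb 1 0 (fun τ => ?_) ?_
  · have h1 : bC 1 τ = E₄ τ := rfl
    rw [h1, zpow_zero, mul_one]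
  · have h1 : bb ℚ 1 = q4 ℚ := rfl
    rw [h1, zpow_zero, mul_one]

theorem HR.e6 (hb : HLB) : HR (fun τ => E₆ τ) (ls (q6 ℚ)) := by
  refine HR.basic hb 2 0 (fun τ => ?_) ?_
  · have h1 : bC 2 τ = E₆ τ := rfl
    rw [h1, zpow_zero, mul_one]
  · have h1 : bb ℚ 2 = q6 ℚ := rfl
    rw [h1, zpow_zero, mul_one]

theorem HR.thI (hb : HLB) (p : ℕ) [hp : Fact p.Prime] (A B C : ℤ) :
    HR (thI p A B C) (TT p ℚ A B C) := by
  have hD := HR.D hb
  have hDi := HR.Dinv hb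
  have h4 := HR.e4 hb
  have h6 := HR.e6 hb
  have hA := (HR.int hb A).mul hb ((hD.V hb p).mul hb hDi)
  have hB := (HR.int hb B).mul hb (((h4.V hb p).mul hb (h4.pow hb 2)).mul hb hDi)
  have hC := (HR.int hb C).mul hb (((h6.V hb p).mul hb h6).mul hb hDi)
  have h := (hA.add hb hB).add hb hC
  have e : (fun τ => (A : ℂ) * (Dl (mulP p τ) * (Dl τ)⁻¹) +
      (B : ℂ) * (E₄ (mulP p τ) * E₄ τ ^ 2 * (Dl τ)⁻¹) +
      (C : ℂ) * (E₆ (mulP p τ) * E₆ τ * (Dl τ)⁻¹)) = H465.OC.thI p A B C := by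
    funext τ
    unfold H465.OC.thI
    rw [div_eq_mul_inv]
    ring
  rw [← e]
  exact h

theorem main (hb : HLB) (hq : HeckeQ) : HeckePoly := by
  intro p hp A B C
  obtain ⟨g, hg⟩ := second hq p A B C
  refine ⟨g, ?_, hg⟩
  have h1 : HR (fun τ => ∑ k ∈ Finset.range (p + 2), (((-1 : ℤ) : ℂ) ^ k * aeval (jC τ) (g k)) *
      thI p A B C τ ^ (p + 1 - k)) (∑ k ∈ Finset.range (p + 2),
      (((-1 : ℤ) : LaurentSeries ℚ) ^ k * aeval (jj ℚ) (g k)) * TT p ℚ A B C ^ (p + 1 - k)) :=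
    HR.sum hb (p + 2) fun k => (((HR.int hb (-1)).pow hb k).mul hb (HR.poly hb (g k))).mul hb
      ((HR.thI hb p A B C).pow hb (p + 1 - k))
  have h2 : HR (fun _ => ((0 : ℤ) : ℂ)) ((0 : ℤ) : LaurentSeries ℚ) := HR.int hb 0
  have e : (fun τ => ∑ k ∈ Finset.range (p + 2), (((-1 : ℤ) : ℂ) ^ k * aeval (jC τ) (g k)) *
      thI p A B C τ ^ (p + 1 - k)) = fun _ => ((0 : ℤ) : ℂ) := by
    funext τ
    have h3 := hg τ (thI p A B C τ)
    rw [sub_self, zero_mul] at h3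
    rw [Int.cast_zero, ← h3, Int.cast_neg, Int.cast_one]
  rw [e] at h1
  have h3 := lmap_inj (hb.1 _ _ _ h1 h2)
  rw [Int.cast_zero, Int.cast_neg, Int.cast_one] at h3
  exact h3

end Pool.Agent.H404.OCHeckePoly
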