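import Pool.Agent.H683.SC.PosStm

/-!
# Project SP (helper683), task S_ZP: permuting the colors (helper404)
-/

set_option autoImplicit false

namespace Pool.Agent.H404.SPZP

open Pool.Agent.H683.SC

theorem cmp_map {q : ℕ} (π : Equiv.Perm (Fin q)) (s s' : Option (Fin q)) :
    Pool.Agent.H683.SC.cmp s s' ↔ Pool.Agent.H683.SC.cmp (s.map π) (s'.map π) := by
  unfold Pool.Agent.H683.SC.cmp
  cases s <;> cases s' <;> simp

/-- Permuting the colors. -/
theorem ZP : S_ZP := by
  intro q t S X π
  classical
  unfold Zt
  refine Fintype.sum_equiv (Equiv.arrowCongr (Equiv.refl _) (Equiv.optionCongr π)) _ _ fun f => ?_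
  have hg : ∀ v, (Equiv.arrowCongr (Equiv.refl (Fin t.labs.length)) (Equiv.optionCongr π)) f v =
      (f v).map π := fun v => rfl
  refine if_congr (and_congr ?_ ?_) ?_ rfl
  · refine forall_congr' fun u => forall_congr' fun v => ?_
    rw [hg, hg]
    exact imp_congr Iff.rfl (cmp_map π _ _)
  · refine forall_congr' fun v => ?_
    rw [hg]
    cases f v with
    | none => simp
    | some c => simp
  · refine Finset.prod_congr rfl fun v _ => ?_
    rw [hg]
    cases f v with
    | none => simp
    | some c => simp

end Pool.Agent.H404.SPZP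

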