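import Pool.Agent.H770.GS.TB

/-!
# Comparison with one summand
-/

set_option autoImplicit false

open MeasureTheory Set intervalIntegral Filter Topology

namespace Pool.Agent.H404.TBcvx

open Pool.Agent.Helper82.GC Pool.Agent.H770.GS

/-- the second moment -/
noncomputable def S2 (r : ℝ) : ℝ := ∫ u in (-r)..r, W u * u ^ 2

theorem Zr_eq (r : ℝ) : Zr r = ∫ u in (-r)..r, W u := by
  unfold Zr W
  rfl

theorem int_odd (r : ℝ) : ∫ u in (-r)..r, W u * u = 0 := by
  have h := intervalIntegral.integral_comp_neg (a := -r) (b := r) (fun u => W u * u)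
  rw [neg_neg] at h
  have h1 : ∫ u in (-r)..r, W (-u) * -u = -∫ u in (-r)..r, W u * u := by
    rw [← intervalIntegral.integral_neg]
    refine intervalIntegral.integral_congr fun u _ => ?_
    simp only [W_even]
    ring
  rw [h1] at h
  linarith

theorem cv_quad (r b α γ : ℝ) {ψ : ℝ → ℝ} (hψ : Continuous ψ) (v : ℝ) :
    cv r b (fun v => ψ v + (α * v ^ 2 + γ)) v =
      cv r b ψ v + (α * Zr r * v ^ 2 + (α * b ^ 2 * S2 r + γ * Zr r)) := by
  have hW := W_cont
  have e : cv r b (fun v => ψ v + (α * v ^ 2 + γ)) v =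
      ∫ u in (-r)..r, (W u * ψ (v + b * u) + ((α * v ^ 2 + γ) * W u +
        (2 * α * v * b * (W u * u) + α * b ^ 2 * (W u * u ^ 2)))) := by
    unfold cv
    refine intervalIntegral.integral_congr fun u _ => ?_
    try simp only
    ring
  have i1 : IntervalIntegrable (fun u => W u * ψ (v + b * u)) volume (-r) r :=
    Continuous.intervalIntegrable (by fun_prop) _ _
  have i2 : IntervalIntegrable (fun u => (α * v ^ 2 + γ) * W u) volume (-r) r :=
    Continuous.intervalIntegrable (by fun_prop) _ _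
  have i3 : IntervalIntegrable (fun u => 2 * α * v * b * (W u * u)) volume (-r) r :=
    Continuous.intervalIntegrable (by fun_prop) _ _
  have i4 : IntervalIntegrable (fun u => α * b ^ 2 * (W u * u ^ 2)) volume (-r) r :=
    Continuous.intervalIntegrable (by fun_prop) _ _
  rw [e, intervalIntegral.integral_add i1 (i2.add (i3.add i4)),
    intervalIntegral.integral_add i2 (i3.add i4), intervalIntegral.integral_add i3 i4,
    intervalIntegral.integral_const_mul, intervalIntegral.integral_const_mul,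
    intervalIntegral.integral_const_mul, int_odd, ← Zr_eq]
  unfold cv S2
  ring

theorem dens_quad (r b α γ : ℝ) {φ : ℝ → ℝ} (hφ : Continuous φ) (k : ℕ) :
    dens r (List.replicate k b) (fun v => φ v + (α * v ^ 2 + γ)) =
      fun v => dens r (List.replicate k b) φ v +
        (α * Zr r ^ k * v ^ 2 + (γ * Zr r ^ k + α * k * b ^ 2 * S2 r * Zr r ^ (k - 1))) := by
  induction k with
  | zero =>
    funext v
    simp [dens]
  | succ k ih =>
    funext v
    rw [List.replicate_succ, dens_cons, ih, cv_quad _ _ _ _ (dens_cont hφ _), dens_cons]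
    rcases k with _ | k
    · simp
      ring
    · simp only [Nat.add_sub_cancel]
      push_cast
      ring

/-- the sign of the primitive -/
theorem prim_nonneg {r : ℝ} (hr : 0 < r) {Δ D : ℝ → ℝ} (hΔ : Continuous Δ)
    (hD : ConvexOn ℝ (Ici 0) D) (hDΔ : ∀ z, 0 ≤ z → Δ z = D (z ^ 2)) (h0 : Δ r = 0)
    (hI : ∫ z in (0:ℝ)..r, Δ z * W z = 0) : ∀ η, 0 ≤ η → 0 ≤ ∫ z in (0:ℝ)..η, Δ z * W z := by
  have hW := W_cont
  have hc : Continuous fun z => Δ z * W z := by fun_prop
  have hii : ∀ a b, IntervalIntegrable (fun z => Δ z * W z) volume a b := fun a b =>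
    hc.intervalIntegrable _ _
  have hDr : D (r ^ 2) = 0 := by rw [← hDΔ r hr.le, h0]
  intro η hη
  rcases le_or_gt η r with hηr | hηr
  · by_contra hneg
    push Not at hneg
    obtain ⟨z1, hz1, hz1n⟩ : ∃ z1 ∈ Icc 0 η, Δ z1 < 0 := by
      by_contra hcon
      push Not at hcon
      exact absurd (intervalIntegral.integral_nonneg hη fun z hz =>
        mul_nonneg (hcon z hz) (W_pos z).le) (not_le.2 hneg)
    have h1 : 0 ≤ ∫ z in η..r, -(Δ z * W z) := by
      refine intervalIntegral.integral_nonneg hηr fun z hz => ?_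
      have hz0 : 0 ≤ z := hη.trans hz.1
      have h2 : D (z ^ 2) ≤ max (D (z1 ^ 2)) (D (r ^ 2)) := by
        refine hD.le_max_of_mem_Icc (mem_Ici.2 (sq_nonneg _)) (mem_Ici.2 (sq_nonneg _)) ⟨?_, ?_⟩
        · exact pow_le_pow_left₀ hz1.1 (hz1.2.trans hz.1) 2
        · exact pow_le_pow_left₀ hz0 hz.2 2
      rw [← hDΔ z1 hz1.1, hDr, max_eq_right hz1n.le, ← hDΔ z hz0] at h2
      have h3 := mul_nonneg (neg_nonneg.2 h2) (W_pos z).le
      linarith
    rw [intervalIntegral.integral_neg] at h1
    have h2 := intervalIntegral.integral_add_adjacent_intervals (hii 0 η) (hii η r)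
    rw [hI] at h2
    linarith
  · have h2 := intervalIntegral.integral_add_adjacent_intervals (hii 0 r) (hii r η)
    rw [← h2, hI, zero_add]
    refine intervalIntegral.integral_nonneg hηr.le fun z2 hz2 => ?_
    refine mul_nonneg ?_ (W_pos z2).le
    by_contra hneg
    push Not at hneg
    have hz2r : r < z2 := by
      refine lt_of_le_of_ne hz2.1 fun h => ?_
      rw [← h, h0] at hneg
      exact lt_irrefl _ hneg
    have hpos : 0 < ∫ z in (0:ℝ)..r, Δ z * W z := by
      refine intervalIntegral.intervalIntegral_pos_of_pos_on (hii 0 r) (fun z hz => ?_) hr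
      refine mul_pos ?_ (W_pos z)
      have hz0 : 0 ≤ z := hz.1.le
      have hzz : z ^ 2 < r ^ 2 := pow_lt_pow_left₀ hz.2 hz0 two_ne_zero
      have hrr : r ^ 2 < z2 ^ 2 := pow_lt_pow_left₀ hz2r hr.le two_ne_zero
      have hd : 0 < z2 ^ 2 - z ^ 2 := by linarith
      have w1 : 0 ≤ (z2 ^ 2 - r ^ 2) / (z2 ^ 2 - z ^ 2) := div_nonneg (by linarith) hd.le
      have w2 : 0 ≤ (r ^ 2 - z ^ 2) / (z2 ^ 2 - z ^ 2) := div_nonneg (by linarith) hd.le
      have w3 : (z2 ^ 2 - r ^ 2) / (z2 ^ 2 - z ^ 2) + (r ^ 2 - z ^ 2) / (z2 ^ 2 - z ^ 2) = 1 := by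
        field_simp
        ring
      have h3 := hD.2 (mem_Ici.2 (sq_nonneg z)) (mem_Ici.2 (sq_nonneg z2)) w1 w2 w3
      simp only [smul_eq_mul] at h3
      have h4 : (z2 ^ 2 - r ^ 2) / (z2 ^ 2 - z ^ 2) * z ^ 2 +
          (r ^ 2 - z ^ 2) / (z2 ^ 2 - z ^ 2) * z2 ^ 2 = r ^ 2 := by
        field_simp
        ring
      rw [h4, hDr, ← hDΔ z hz0, ← hDΔ z2 (hr.le.trans hz2.1)] at h3
      have h5 : (r ^ 2 - z ^ 2) / (z2 ^ 2 - z ^ 2) * Δ z2 < 0 :=
        mul_neg_of_pos_of_neg (div_pos (by linarith) hd) hneg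
      have h6 : 0 < (z2 ^ 2 - r ^ 2) / (z2 ^ 2 - z ^ 2) * Δ z := by linarith
      exact (mul_pos_iff_of_pos_left (div_pos (by linarith) hd)).1 h6
    rw [hI] at hpos
    exact lt_irrefl _ hpos

theorem h_cvx : S_cvx := by
  intro hS r k φ hr hk hφ hev hconv
  have hW := W_cont
  have hkpos : (0 : ℝ) < k := by exact_mod_cast hk
  set A : ℝ := ∫ z in (-r)..r, W z * (φ z - φ r) with hA
  set B : ℝ := ∫ z in (-r)..r, W z * (z ^ 2 - r ^ 2) with hB
  have hBneg : B < 0 := by
    have h1 : 0 < ∫ z in (-r)..r, W z * (r ^ 2 - z ^ 2) := by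
      refine intervalIntegral.intervalIntegral_pos_of_pos_on
        (Continuous.intervalIntegrable (by fun_prop) _ _) (fun z hz => ?_) (by linarith)
      refine mul_pos (W_pos z) ?_
      nlinarith [hz.1, hz.2]
    have h2 : B = -∫ z in (-r)..r, W z * (r ^ 2 - z ^ 2) := by
      rw [hB, ← intervalIntegral.integral_neg]
      refine intervalIntegral.integral_congr fun z _ => ?_
      try simp only
      ring
    linarith
  set m : ℝ := A / B with hm
  have hmB : m * B = A := div_mul_cancel₀ _ hBneg.ne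
  set Δ : ℝ → ℝ := fun z => φ z + (-m * z ^ 2 + (m * r ^ 2 - φ r)) with hΔ
  have hΔc : Continuous Δ := by fun_prop
  have hΔe : ∀ x, Δ (-x) = Δ x := by
    intro x
    simp only [hΔ, hev, neg_sq]
  have hΔr : Δ r = 0 := by
    simp only [hΔ]
    ring
  have hfull : ∫ z in (-r)..r, Δ z * W z = 0 := by
    have h1 : ∫ z in (-r)..r, Δ z * W z =
        ∫ z in (-r)..r, (W z * (φ z - φ r) - m * (W z * (z ^ 2 - r ^ 2))) := by
      refine intervalIntegral.integral_congr fun z _ => ?_
      simp only [hΔ]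
      ring
    rw [h1, intervalIntegral.integral_sub (Continuous.intervalIntegrable (by fun_prop) _ _)
      (Continuous.intervalIntegrable (by fun_prop) _ _), intervalIntegral.integral_const_mul,
      ← hA, ← hB, hmB, sub_self]
  have hhalf : ∫ z in (0:ℝ)..r, Δ z * W z = 0 := by
    have hii : ∀ a b, IntervalIntegrable (fun z => Δ z * W z) volume a b := fun a b =>
      Continuous.intervalIntegrable (by fun_prop) _ _
    have h1 := intervalIntegral.integral_add_adjacent_intervals (hii (-r) 0) (hii 0 r)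
    have h2 := intervalIntegral.integral_comp_neg (a := 0) (b := r) (fun u => Δ u * W u)
    simp only [hΔe, W_even, neg_zero] at h2
    rw [← h2, hfull] at h1
    linarith
  have hst : 0 ≤ dens r (List.replicate k (1 / Real.sqrt k)) Δ 0 := by
    refine hS r k Δ hr hk hΔc hΔe ?_
    refine prim_nonneg hr (D := fun w => φ (Real.sqrt w) + (-m * w + (m * r ^ 2 - φ r))) hΔc ?_
      ?_ hΔr hhalf
    · refine hconv.add ?_
      refine ⟨convex_Ici 0, fun x _ y _ a b _ _ hab => ?_⟩
      simp only [smul_eq_mul]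
      have : (m * r ^ 2 - φ r) = (a + b) * (m * r ^ 2 - φ r) := by rw [hab, one_mul]
      nlinarith [this]
    · intro z hz
      simp only [hΔ]
      rw [Real.sqrt_sq hz]
  have hkb : (k : ℝ) * (1 / Real.sqrt k) ^ 2 = 1 := by
    rw [div_pow, one_pow, Real.sq_sqrt hkpos.le]
    field_simp
  have hd := congrFun (dens_quad r (1 / Real.sqrt k) (-m) (m * r ^ 2 - φ r) hφ k) 0
  rw [hΔ, hd] at hst
  have hZk : Zr r ^ k = Zr r ^ (k - 1) * Zr r := by
    rw [← pow_succ, Nat.sub_add_cancel hk]
  -- the value of the one dimensional integral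
  have hcv : cv r 1 φ 0 = ∫ z in (-r)..r, W z * φ z := by
    unfold cv
    refine intervalIntegral.integral_congr fun u _ => ?_
    try simp only
    rw [zero_add, one_mul]
  have hAe : A = cv r 1 φ 0 - φ r * Zr r := by
    rw [hcv, Zr_eq, ← intervalIntegral.integral_const_mul, ← intervalIntegral.integral_sub
      (Continuous.intervalIntegrable (by fun_prop) _ _)
      (Continuous.intervalIntegrable (by fun_prop) _ _)]
    refine intervalIntegral.integral_congr fun u _ => ?_
    try simp only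
    ring
  have hBe : B = S2 r - r ^ 2 * Zr r := by
    unfold S2
    rw [Zr_eq, ← intervalIntegral.integral_const_mul, ← intervalIntegral.integral_sub
      (Continuous.intervalIntegrable (by fun_prop) _ _)
      (Continuous.intervalIntegrable (by fun_prop) _ _)]
    refine intervalIntegral.integral_congr fun u _ => ?_
    try simp only
    ring
  have hfin : (-m) * Zr r ^ k * 0 ^ 2 + ((m * r ^ 2 - φ r) * Zr r ^ k +
      -m * k * (1 / Real.sqrt k) ^ 2 * S2 r * Zr r ^ (k - 1)) =
      -(Zr r ^ (k - 1) * cv r 1 φ 0) := by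
    have h1 : cv r 1 φ 0 = m * (S2 r - r ^ 2 * Zr r) + φ r * Zr r := by
      rw [← hBe, hmB, hAe]
      ring
    rw [hZk, h1]
    linear_combination (-m * S2 r * Zr r ^ (k - 1)) * hkb
  rw [hfin] at hst
  linarith

end Pool.Agent.H404.TBcvx
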