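import Pool.Agent.H770.GS.TL

/-!
# Task TL-3 (helper404, for helper770): the integral for `v` close to `r`
-/

set_option autoImplicit false

open MeasureTheory Set intervalIntegral Filter Topology

namespace Pool.Agent.H404.TL3

open Pool.Agent.H770.GS

theorem Mc_eq (r c a : ℝ) : Mc r c a = (c * a) ^ 3 * fL r (c * a) / 4 +
    Real.exp (-r ^ 2 + r * (c * a) - (c * a) ^ 2 / 2) * (1 - r * (c * a) + 3 * (c * a) ^ 2 / 2) := by
  unfold Mc nLd nL
  have h : Real.exp (-(c * a) ^ 2 / 4) * Real.exp (-(r - c * a / 2) ^ 2) =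
      Real.exp (-r ^ 2 + r * (c * a) - (c * a) ^ 2 / 2) := by
    rw [← Real.exp_add]
    ring_nf
  rw [h]
  ring

theorem Mc_one (r c a : ℝ) : Mc r c a = Mc r 1 (c * a) := by
  unfold Mc
  rw [one_mul]

theorem one_sub_mul_exp (t : ℝ) : (1 - t) * Real.exp t ≤ 1 := by
  have h1 := Real.add_one_le_exp (-t)
  have h2 : Real.exp (-t) * Real.exp t = 1 := by rw [← Real.exp_add]; simp
  have h3 := mul_le_mul_of_nonneg_right h1 (Real.exp_pos t).le
  rw [h2] at h3
  linarith

theorem aux_le {X Y : ℝ} (hX : X ≤ 1) (hY0 : 0 ≤ Y) (hY : Y ≤ 1) : X * Y ≤ 1 :=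
  (mul_le_mul_of_nonneg_right hX hY0).trans (by linarith)

theorem NR_ge (r v a : ℝ) : W r - W v ≤ NR r v a := by
  unfold NR W
  have h1 : Real.exp (-(v - a) ^ 2 / 2) =
      Real.exp (-v ^ 2 / 2) * (Real.exp (v * a) * Real.exp (-a ^ 2 / 2)) := by
    rw [← Real.exp_add, ← Real.exp_add]
    ring_nf
  have h2 : Real.exp (-a ^ 2 / 2) ≤ 1 := Real.exp_le_one_iff.2 (by nlinarith [sq_nonneg a])
  have h3 := aux_le (one_sub_mul_exp (v * a)) (Real.exp_pos _).le h2
  have h4 := mul_le_mul_of_nonneg_left h3 (Real.exp_pos (-v ^ 2 / 2)).le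
  rw [h1]
  linarith

theorem W_sub_le {r v : ℝ} (_hv : 0 < v) (hvr : v < r) : W v - W r ≤ W v * (r - v) * r := by
  unfold W
  have h1 : Real.exp (-r ^ 2 / 2) = Real.exp (-v ^ 2 / 2) * Real.exp (-((r ^ 2 - v ^ 2) / 2)) := by
    rw [← Real.exp_add]
    ring_nf
  have h2 := Real.add_one_le_exp (-((r ^ 2 - v ^ 2) / 2))
  have h3 : (r ^ 2 - v ^ 2) / 2 ≤ (r - v) * r := by nlinarith
  have h4 : 1 - Real.exp (-((r ^ 2 - v ^ 2) / 2)) ≤ (r - v) * r := by linarith
  have h5 := mul_le_mul_of_nonneg_left h4 (Real.exp_pos (-v ^ 2 / 2)).le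
  rw [h1]
  linarith

theorem I2_mono : Monotone I2 := by
  apply monotone_of_deriv_nonneg
  · exact fun x => (I2_deriv x).differentiableAt
  · intro x
    rw [(I2_deriv x).deriv]
    positivity

theorem I2_ge : (1.07 : ℝ) ≤ I2 0.615 := by
  have hd : ∀ x, HasDerivAt (fun q : ℝ => I2 q - 2 * (q - q ^ 3 / 3))
      (2 * Real.exp (-x ^ 2) - 2 * (1 - x ^ 2)) x := by
    intro x
    have h1 : HasDerivAt (fun q : ℝ => 2 * (q - q ^ 3 / 3)) (2 * (1 - x ^ 2)) x := by
      refine (((hasDerivAt_id x).sub ((hasDerivAt_pow 3 x).div_const 3)).const_mul 2).congr_deriv ?_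
      norm_num
    exact (I2_deriv x).sub h1
  have hmono : Monotone (fun q : ℝ => I2 q - 2 * (q - q ^ 3 / 3)) := by
    apply monotone_of_deriv_nonneg
    · exact fun x => (hd x).differentiableAt
    · intro x
      rw [(hd x).deriv]
      have := Real.add_one_le_exp (-x ^ 2)
      linarith
  have h := hmono (show (0 : ℝ) ≤ 0.615 by norm_num)
  simp only [I2_zero] at h
  norm_num at h ⊢
  linarith

theorem I2_le {q : ℝ} (hq : 0 ≤ q) : I2 q ≤ 1.78 := by
  unfold I2
  rw [intervalIntegral.integral_of_le (by linarith)]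
  have h1 : Integrable (fun p : ℝ => Real.exp (-p ^ 2)) := by
    have := integrable_exp_neg_mul_sq (b := 1) one_pos
    simpa using this
  have h2 : ∫ p in Ioc (-q) q, Real.exp (-p ^ 2) ≤ ∫ p, Real.exp (-p ^ 2) :=
    setIntegral_le_integral h1 (Filter.Eventually.of_forall fun x => (Real.exp_pos _).le)
  have h3 : ∫ p : ℝ, Real.exp (-p ^ 2) = Real.sqrt Real.pi := by
    have := integral_gaussian 1
    simpa using this
  have h4 : Real.sqrt Real.pi ≤ 1.78 := by
    rw [Real.sqrt_le_left (by norm_num)]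
    have := Real.pi_lt_d2
    norm_num at this ⊢
    linarith
  linarith

theorem exp_103 : Real.exp 1.03 ≤ 2.81 := by
  have h1 : Real.exp 1.03 = Real.exp 1 * Real.exp 0.03 := by
    rw [← Real.exp_add]
    norm_num
  have h2 := Real.exp_one_lt_d9
  have h3 := Real.add_one_le_exp (-0.03 : ℝ)
  have h4 : Real.exp (-0.03 : ℝ) * Real.exp 0.03 = 1 := by rw [← Real.exp_add]; simp
  have h5 : Real.exp 0.03 ≤ 1.031 := by
    by_contra hcon
    push Not at hcon
    have h6 := mul_lt_mul_of_pos_left hcon (Real.exp_pos (-0.03 : ℝ))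
    rw [h4] at h6
    norm_num at h3 h6
    linarith
  rw [h1]
  have h7 : Real.exp 1 * Real.exp 0.03 ≤ 2.7182818286 * 1.031 :=
    mul_le_mul h2.le h5 (Real.exp_pos _).le (by norm_num)
  norm_num at h7 ⊢
  linarith

/-- upper bound near `0` -/
theorem Mc_le {r c v a : ℝ} (hr : 0 < r) (hc : 0 < c) (hc1 : c ≤ 1) (hv : 5 / 3 ≤ v)
    (hrv : r ≤ v + 1 / 20) (ha : 0 < a) (hav : a ≤ 1 / v) (har : a ≤ 2 * r) :
    Mc r c a / a ^ 2 ≤ 0.445 * c ^ 3 * a + Real.exp (-r ^ 2) / a ^ 2 + 4.3 * Real.exp (-r ^ 2) := by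
  have hv0 : 0 < v := by linarith
  have hx0 : 0 < c * a := mul_pos hc ha
  have hxa : c * a ≤ a := by nlinarith
  have hxv : c * a ≤ 1 / v := hxa.trans hav
  have hfL : fL r (c * a) ≤ 1.78 := by
    unfold fL
    have h1 : Real.exp (-(c * a) ^ 2 / 4) ≤ 1 :=
      Real.exp_le_one_iff.2 (by nlinarith [sq_nonneg (c * a)])
    have h2 : I2 (r - c * a / 2) ≤ 1.78 := I2_le (by linarith)
    have h3 : 0 ≤ I2 (r - c * a / 2) := by
      have := I2_mono (show (0 : ℝ) ≤ r - c * a / 2 by linarith)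
      rwa [I2_zero] at this
    nlinarith
  have hrx : r * (c * a) ≤ 1.03 := by
    have h1 : r * (c * a) ≤ r * (1 / v) := mul_le_mul_of_nonneg_left hxv hr.le
    have h2 : r * (1 / v) ≤ 1.03 := by
      rw [mul_one_div, div_le_iff₀ hv0]
      norm_num
      linarith
    linarith
  have hexp : Real.exp (r * (c * a)) ≤ 2.81 := (Real.exp_le_exp.2 hrx).trans exp_103
  have hE : Real.exp (-r ^ 2 + r * (c * a) - (c * a) ^ 2 / 2) =
      Real.exp (-r ^ 2) * (Real.exp (r * (c * a)) * Real.exp (-(c * a) ^ 2 / 2)) := by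
    rw [← Real.exp_add, ← Real.exp_add]
    ring_nf
  have hY : Real.exp (-(c * a) ^ 2 / 2) ≤ 1 :=
    Real.exp_le_one_iff.2 (by nlinarith [sq_nonneg (c * a)])
  have hY0 := (Real.exp_pos (-(c * a) ^ 2 / 2)).le
  have he0 := (Real.exp_pos (-r ^ 2)).le
  have hk : Real.exp (-r ^ 2 + r * (c * a) - (c * a) ^ 2 / 2) *
      (1 - r * (c * a) + 3 * (c * a) ^ 2 / 2) ≤ Real.exp (-r ^ 2) * (1 + 4.3 * (c * a) ^ 2) := by
    rw [hE]
    have h1 := aux_le (one_sub_mul_exp (r * (c * a))) hY0 hY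
    have h2 : Real.exp (r * (c * a)) * Real.exp (-(c * a) ^ 2 / 2) ≤ 2.81 := by
      have := mul_le_mul hexp hY hY0 (by norm_num)
      linarith
    have h3 : Real.exp (r * (c * a)) * Real.exp (-(c * a) ^ 2 / 2) * (3 * (c * a) ^ 2 / 2) ≤
        2.81 * (3 * (c * a) ^ 2 / 2) := mul_le_mul_of_nonneg_right h2 (by positivity)
    rw [mul_assoc]
    apply mul_le_mul_of_nonneg_left _ he0
    nlinarith [sq_nonneg (c * a)]
  rw [Mc_eq, div_le_iff₀ (by positivity)]
  have h1 : (c * a) ^ 3 * fL r (c * a) / 4 ≤ 0.445 * c ^ 3 * a * a ^ 2 := by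
    have h2 : (c * a) ^ 3 * fL r (c * a) ≤ (c * a) ^ 3 * 1.78 :=
      mul_le_mul_of_nonneg_left hfL (by positivity)
    calc (c * a) ^ 3 * fL r (c * a) / 4 ≤ (c * a) ^ 3 * 1.78 / 4 := by linarith
      _ = 0.445 * c ^ 3 * a * a ^ 2 := by ring
  have h2 : Real.exp (-r ^ 2) * (1 + 4.3 * (c * a) ^ 2) ≤
      Real.exp (-r ^ 2) + 4.3 * Real.exp (-r ^ 2) * a ^ 2 := by
    have h3 : (c * a) ^ 2 ≤ a ^ 2 := pow_le_pow_left₀ hx0.le hxa 2
    have h4 := mul_le_mul_of_nonneg_left h3 he0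
    nlinarith
  have h3 : (0.445 * c ^ 3 * a + Real.exp (-r ^ 2) / a ^ 2 + 4.3 * Real.exp (-r ^ 2)) * a ^ 2 =
      0.445 * c ^ 3 * a * a ^ 2 + (Real.exp (-r ^ 2) + 4.3 * Real.exp (-r ^ 2) * a ^ 2) := by
    have ha2 : a ^ 2 ≠ 0 := by positivity
    field_simp
    ring
  rw [h3]
  linarith

/-- the integral of the upper bound -/
theorem int_U {c e0 δ v : ℝ} (hc : 0 < c) (he0 : 0 ≤ e0) (hδ : 0 < δ) (hv : 0 < v)
    (hδv : δ ≤ 1 / v) :
    IntervalIntegrable (fun a : ℝ => 0.445 * c ^ 3 * a + e0 / a ^ 2 + 4.3 * e0) volume δ (1 / v) ∧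
    ∫ a in δ..(1 / v), (0.445 * c ^ 3 * a + e0 / a ^ 2 + 4.3 * e0) ≤
      0.2225 * c ^ 3 / v ^ 2 + e0 / δ + 4.3 * e0 / v := by
  have hpos : ∀ a ∈ uIcc δ (1 / v), 0 < a := by
    intro a ha
    rw [uIcc_of_le hδv] at ha
    exact lt_of_lt_of_le hδ ha.1
  have hcont : ContinuousOn (fun a : ℝ => 0.445 * c ^ 3 * a + e0 / a ^ 2 + 4.3 * e0)
      (uIcc δ (1 / v)) := by
    apply ContinuousOn.add
    · apply ContinuousOn.add
      · fun_prop
      · apply ContinuousOn.div (by fun_prop) (by fun_prop)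
        intro a ha
        have := hpos a ha
        positivity
    · fun_prop
  have hint := hcont.intervalIntegrable (μ := volume)
  refine ⟨hint, ?_⟩
  have hder : ∀ a ∈ uIcc δ (1 / v), HasDerivAt
      (fun a : ℝ => 0.2225 * c ^ 3 * a ^ 2 - e0 * a⁻¹ + 4.3 * e0 * a)
      (0.445 * c ^ 3 * a + e0 / a ^ 2 + 4.3 * e0) a := by
    intro a ha
    have ha0 := hpos a ha
    have h1 : HasDerivAt (fun a : ℝ => 0.2225 * c ^ 3 * a ^ 2) (0.445 * c ^ 3 * a) a := by
      refine ((hasDerivAt_pow 2 a).const_mul (0.2225 * c ^ 3)).congr_deriv ?_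
      norm_num
      ring
    have h2 : HasDerivAt (fun a : ℝ => e0 * a⁻¹) (-(e0 / a ^ 2)) a := by
      refine ((hasDerivAt_inv ha0.ne').const_mul e0).congr_deriv ?_
      field_simp
    have h3 : HasDerivAt (fun a : ℝ => 4.3 * e0 * a) (4.3 * e0) a := by
      simpa using (hasDerivAt_id a).const_mul (4.3 * e0)
    refine ((h1.sub h2).add h3).congr_deriv ?_
    ring
  rw [integral_eq_sub_of_hasDerivAt hder hint]
  have e1 : 0.2225 * c ^ 3 * (1 / v) ^ 2 = 0.2225 * c ^ 3 / v ^ 2 := by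
    field_simp
  have e2 : e0 * δ⁻¹ = e0 / δ := by rw [div_eq_mul_inv]
  have e3 : 4.3 * e0 * (1 / v) = 4.3 * e0 / v := by ring
  have e4 : 0 ≤ e0 * (1 / v)⁻¹ := by positivity
  have e5 : 0 ≤ 0.2225 * c ^ 3 * δ ^ 2 := by positivity
  have e6 : 0 ≤ 4.3 * e0 * δ := by positivity
  rw [e1, e3, e2]
  linarith

/-- the exponential of `-r²` and `c` -/
theorem exp_le_c {r c : ℝ} (hr3 : 3 ≤ r ^ 2) (hc : 0 < c) (hc1 : c ≤ 1)
    (hcr : 1 < c ^ 2 * (r ^ 2 - 2)) : Real.exp (-r ^ 2) ≤ 0.0736 * c ^ 3 := by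
  obtain ⟨y, hy⟩ : ∃ y, y = r ^ 2 - 2 := ⟨_, rfl⟩
  have hy1 : 1 ≤ y := by linarith
  rw [← hy] at hcr
  -- `exp (y/2) ≥ e y / 2`
  have h1 : Real.exp 1 * (y / 2) ≤ Real.exp (y / 2) := by
    have h2 := Real.add_one_le_exp (y / 2 - 1)
    have h3 : Real.exp (y / 2) = Real.exp 1 * Real.exp (y / 2 - 1) := by
      rw [← Real.exp_add]
      ring_nf
    rw [h3]
    exact mul_le_mul_of_nonneg_left (by linarith) (Real.exp_pos 1).le
  have h4 : 1.847 * y ^ 2 ≤ Real.exp y := by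
    have h5 : Real.exp y = Real.exp (y / 2) * Real.exp (y / 2) := by
      rw [← Real.exp_add]
      ring_nf
    have h6 := Real.exp_one_gt_d9
    have h7 : 2.7182818283 * (y / 2) ≤ Real.exp (y / 2) := by
      refine le_trans ?_ h1
      exact mul_le_mul_of_nonneg_right h6.le (by linarith)
    have h8 : (2.7182818283 * (y / 2)) * (2.7182818283 * (y / 2)) ≤
        Real.exp (y / 2) * Real.exp (y / 2) := mul_le_mul h7 h7 (by positivity) (Real.exp_pos _).le
    rw [h5]
    nlinarith [sq_nonneg y]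
  have h9 : (7.38 : ℝ) ≤ Real.exp 2 := by
    have h10 : Real.exp 2 = Real.exp 1 * Real.exp 1 := by
      rw [← Real.exp_add]
      norm_num
    have h6 := Real.exp_one_gt_d9
    rw [h10]
    nlinarith
  have h11 : Real.exp (r ^ 2) = Real.exp y * Real.exp 2 := by
    rw [← Real.exp_add, hy]
    ring_nf
  have h12 : 13.63 * y ^ 2 ≤ Real.exp (r ^ 2) := by
    rw [h11]
    have h13 : (1.847 * y ^ 2) * 7.38 ≤ Real.exp y * Real.exp 2 :=
      mul_le_mul h4 h9 (by norm_num) (Real.exp_pos _).le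
    nlinarith [sq_nonneg y]
  -- `1 ≤ c ^ 3 y ^ 2`
  have h14 : 1 ≤ c ^ 3 * y ^ 2 := by
    have h15 : 1 ≤ (c ^ 2 * y) * (c ^ 2 * y) := by nlinarith
    have h16 : (c ^ 2 * y) * (c ^ 2 * y) = c * (c ^ 3 * y ^ 2) := by ring
    have h17 : 0 ≤ c ^ 3 * y ^ 2 := by positivity
    nlinarith
  have h18 : Real.exp (-r ^ 2) * Real.exp (r ^ 2) = 1 := by rw [← Real.exp_add]; simp
  have h19 : 0 < Real.exp (-r ^ 2) := Real.exp_pos _
  have h20 : Real.exp (-r ^ 2) * (13.63 * y ^ 2) ≤ 1 := by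
    rw [← h18]
    exact mul_le_mul_of_nonneg_left h12 h19.le
  have h21 : 0 < y ^ 2 := by positivity
  -- multiply by `c ^ 3 y ^ 2 ≥ 1`
  have h22 : Real.exp (-r ^ 2) ≤ Real.exp (-r ^ 2) * (c ^ 3 * y ^ 2) := by nlinarith
  have h23 : Real.exp (-r ^ 2) * (c ^ 3 * y ^ 2) =
      (Real.exp (-r ^ 2) * (13.63 * y ^ 2)) * (c ^ 3 / 13.63) := by ring
  have h24 : (Real.exp (-r ^ 2) * (13.63 * y ^ 2)) * (c ^ 3 / 13.63) ≤ 1 * (c ^ 3 / 13.63) :=
    mul_le_mul_of_nonneg_right h20 (by positivity)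
  have h25 : (1 : ℝ) * (c ^ 3 / 13.63) ≤ 0.0736 * c ^ 3 := by
    have : 0 < c ^ 3 := by positivity
    rw [one_mul, div_le_iff₀ (by norm_num)]
    nlinarith
  linarith

theorem main : S_TL3 := by
  intro hTL1 r c v hr hr3 hc hc1 hcr hv1 hvr
  have hr17 : 1.732 ≤ r := by
    by_contra hcon
    push Not at hcon
    nlinarith
  have hv168 : 1.68 ≤ v := by
    norm_num at hr17 ⊢
    linarith
  have hv0 : 0 < v := by
    norm_num at hv168
    linarith
  have hv53 : 5 / 3 ≤ v := by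
    norm_num at hv168 ⊢
    linarith
  have hδ : 0 < r - v := by linarith
  have hc3 : 0 < c ^ 3 := by positivity
  -- the integrand
  obtain ⟨f, hf⟩ : ∃ f : ℝ → ℝ, f = fun a => NR r v a * (Mc r c a / a ^ 2) := ⟨_, rfl⟩
  have hfc : ContinuousOn f (Ioi 0) := by
    rw [hf]
    have h1 : Continuous (NR r v) := by
      unfold NR W
      fun_prop
    have h2 := Mc_cont r c
    apply h1.continuousOn.mul
    apply h2.continuousOn.div (by fun_prop)
    intro a ha
    have : 0 < a := ha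
    positivity
  have hint : ∀ x y : ℝ, 0 < x → 0 < y → IntervalIntegrable f volume x y := by
    intro x y hx hy
    apply ContinuousOn.intervalIntegrable
    apply hfc.mono
    intro z hz
    exact lt_of_lt_of_le (lt_min hx hy) hz.1
  have hM0 : ∀ a, 0 < a → a ≤ r + v → (c * a) ^ 3 * fL r (c * a) / 8 ≤ Mc r c a ∧
      0 ≤ fL r (c * a) := by
    intro a ha har
    rw [Mc_one r c a]
    apply hTL1 r (c * a) hr hr3 (by positivity)
    nlinarith
  have hMn : ∀ a, 0 < a → a ≤ r + v → 0 ≤ Mc r c a / a ^ 2 := by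
    intro a ha har
    obtain ⟨h1, h2⟩ := hM0 a ha har
    have h3 : 0 ≤ (c * a) ^ 3 * fL r (c * a) / 8 := by positivity
    exact div_nonneg (h3.trans h1) (by positivity)
  have hNR : ∀ a, 1 / v ≤ a → (v * a - 1) * W (v - a) ≤ NR r v a ∧ 0 ≤ NR r v a := by
    intro a ha
    have h1 : 1 ≤ v * a := by
      rw [div_le_iff₀ hv0] at ha
      linarith
    have h2 : 0 < W (v - a) := Real.exp_pos _
    have h3 : 0 < W r := Real.exp_pos _
    unfold NR
    constructor
    · nlinarith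
    · nlinarith
  have hpos : ∀ a, 0 < a → 1 / v ≤ a → a ≤ r + v → 0 ≤ f a := by
    intro a ha0 ha har
    rw [hf]
    exact mul_nonneg (hNR a ha).2 (hMn a ha0 har)
  have h1v : 0 < 1 / v := by positivity
  have hgoal : ∫ a in (r - v)..(r + v), NR r v a * (Mc r c a / a ^ 2) =
      ∫ a in (r - v)..(r + v), f a := by rw [hf]
  rw [hgoal]
  rcases le_or_gt (1 / v) (r - v) with hcase | hcase
  · apply intervalIntegral.integral_nonneg (by linarith)
    intro a ha
    exact hpos a (lt_of_lt_of_le hδ ha.1) (hcase.trans ha.1) ha.2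
  -- the main case
  have hv12 : 1 / v ≤ v - 1 / 2 := by
    rw [div_le_iff₀ hv0]
    norm_num at hv168
    nlinarith
  rw [← integral_add_adjacent_intervals (hint (r - v) (1 / v) hδ h1v)
    (hint (1 / v) (r + v) h1v (by linarith)),
    ← integral_add_adjacent_intervals (hint (1 / v) (v - 1 / 2) h1v (by linarith))
    (hint (v - 1 / 2) (r + v) (by linarith) (by linarith)),
    ← integral_add_adjacent_intervals (hint (v - 1 / 2) (v + 1 / 2) (by linarith) (by linarith))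
    (hint (v + 1 / 2) (r + v) (by linarith) (by linarith))]
  have hB1 : 0 ≤ ∫ a in (1 / v)..(v - 1 / 2), f a := by
    apply intervalIntegral.integral_nonneg hv12
    intro a ha
    exact hpos a (lt_of_lt_of_le h1v ha.1) ha.1 (by linarith [ha.2])
  have hB3 : 0 ≤ ∫ a in (v + 1 / 2)..(r + v), f a := by
    apply intervalIntegral.integral_nonneg (by linarith)
    intro a ha
    exact hpos a (by linarith [ha.1]) (by linarith [ha.1]) ha.2
  -- the positive part
  obtain ⟨κ, hκ⟩ : ∃ κ : ℝ, κ = ((v * (v - 1 / 2) - 1) * W (1 / 2)) *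
      (c ^ 3 * (v - 1 / 2) * (Real.exp (-(v + 1 / 2) ^ 2 / 4) * 1.07) / 8) := ⟨_, rfl⟩
  have hvv : 0 < v * (v - 1 / 2) - 1 := by
    norm_num at hv168
    nlinarith
  have hB2 : κ ≤ ∫ a in (v - 1 / 2)..(v + 1 / 2), f a := by
    have h1 : ∫ a in (v - 1 / 2)..(v + 1 / 2), κ = κ := by
      rw [intervalIntegral.integral_const, smul_eq_mul]
      ring
    rw [← h1]
    apply intervalIntegral.integral_mono_on (by linarith) intervalIntegrable_const
      (hint _ _ (by linarith) (by linarith))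
    intro a ha
    have ha0 : 0 < a := by linarith [ha.1]
    have hav : 1 / v ≤ a := hv12.trans ha.1
    have har : a ≤ r + v := by linarith [ha.2]
    have hca : c * a ≤ a := by nlinarith
    obtain ⟨h2, h3⟩ := hM0 a ha0 har
    have h4 := (hNR a hav).1
    have h5 : W (1 / 2) ≤ W (v - a) := by
      unfold W
      apply Real.exp_le_exp.2
      have : (v - a) ^ 2 ≤ (1 / 2) ^ 2 := by
        apply sq_le_sq'
        · linarith [ha.2]
        · linarith [ha.1]
      linarith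
    have h6 : v * (v - 1 / 2) - 1 ≤ v * a - 1 := by
      have := mul_le_mul_of_nonneg_left ha.1 hv0.le
      linarith
    have hW0 : 0 < W (1 / 2) := Real.exp_pos _
    have h7 : (v * (v - 1 / 2) - 1) * W (1 / 2) ≤ NR r v a :=
      (mul_le_mul h6 h5 hW0.le (by linarith)).trans h4
    have h8 : Real.exp (-(v + 1 / 2) ^ 2 / 4) * 1.07 ≤ fL r (c * a) := by
      unfold fL
      apply mul_le_mul _ _ (by norm_num) (Real.exp_pos _).le
      · apply Real.exp_le_exp.2
        have : (c * a) ^ 2 ≤ (v + 1 / 2) ^ 2 := by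
          apply pow_le_pow_left₀ (by positivity)
          linarith [ha.2]
        linarith
      · apply I2_ge.trans
        apply I2_mono
        norm_num at hr17 ⊢
        linarith [ha.2]
    have h9 : c ^ 3 * (v - 1 / 2) * (Real.exp (-(v + 1 / 2) ^ 2 / 4) * 1.07) / 8 ≤
        Mc r c a / a ^ 2 := by
      rw [le_div_iff₀ (by positivity)]
      refine le_trans ?_ h2
      have h10 : c ^ 3 * (v - 1 / 2) * (Real.exp (-(v + 1 / 2) ^ 2 / 4) * 1.07) ≤
          c ^ 3 * a * fL r (c * a) := by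
        apply mul_le_mul _ h8 (by positivity) (by positivity)
        exact mul_le_mul_of_nonneg_left ha.1 hc3.le
      have h11 : c ^ 3 * (v - 1 / 2) * (Real.exp (-(v + 1 / 2) ^ 2 / 4) * 1.07) / 8 * a ^ 2 ≤
          c ^ 3 * a * fL r (c * a) / 8 * a ^ 2 :=
        mul_le_mul_of_nonneg_right (by linarith) (by positivity)
      refine h11.trans (le_of_eq ?_)
      ring
    rw [hf, hκ]
    apply mul_le_mul h7 h9 _ (hNR a hav).2
    have h12 : 0 < v - 1 / 2 := by linarith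
    positivity
  -- the negative part
  obtain ⟨e0, he0⟩ : ∃ e0, e0 = Real.exp (-r ^ 2) := ⟨_, rfl⟩
  have he0p : 0 < e0 := by rw [he0]; exact Real.exp_pos _
  obtain ⟨Dd, hDd⟩ : ∃ Dd, Dd = W v * (r - v) * r := ⟨_, rfl⟩
  have hWv : 0 < W v := Real.exp_pos _
  have hDp : 0 < Dd := by rw [hDd]; positivity
  have hA : -(Dd * (0.2225 * c ^ 3 / v ^ 2 + e0 / (r - v) + 4.3 * e0 / v)) ≤
      ∫ a in (r - v)..(1 / v), f a := by
    obtain ⟨h1, h2⟩ := int_U (c := c) (e0 := e0) (δ := r - v) (v := v) hc he0p.le hδ hv0 hcase.le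
    have h3 : ∫ a in (r - v)..(1 / v), -(Dd * (0.445 * c ^ 3 * a + e0 / a ^ 2 + 4.3 * e0)) ≤
        ∫ a in (r - v)..(1 / v), f a := by
      apply intervalIntegral.integral_mono_on hcase.le ((h1.const_mul Dd).neg)
        (hint _ _ hδ h1v)
      intro a ha
      have ha0 : 0 < a := lt_of_lt_of_le hδ ha.1
      have h1v1 : 1 / v ≤ 1 := by
        rw [div_le_one hv0]
        linarith
      have har : a ≤ r + v := by linarith [ha.2]
      have h4 := hMn a ha0 har
      have h5 := Mc_le (v := v) hr hc hc1 hv53 (by linarith) ha0 ha.2 (by linarith [ha.2])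
      rw [← he0] at h5
      have h6 : -Dd ≤ NR r v a := by
        have h7 := NR_ge r v a
        have h8 := W_sub_le hv0 hvr
        rw [hDd]
        linarith
      have h9 : -Dd * (Mc r c a / a ^ 2) ≤ NR r v a * (Mc r c a / a ^ 2) :=
        mul_le_mul_of_nonneg_right h6 h4
      have h10 := mul_le_mul_of_nonneg_left h5 hDp.le
      rw [hf]
      show -(Dd * (0.445 * c ^ 3 * a + e0 / a ^ 2 + 4.3 * e0)) ≤ NR r v a * (Mc r c a / a ^ 2)
      linarith
    refine le_trans ?_ h3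
    rw [intervalIntegral.integral_neg, intervalIntegral.integral_const_mul]
    have h4 := mul_le_mul_of_nonneg_left h2 hDp.le
    linarith
  -- bounds for the negative part
  have hN : Dd * (0.2225 * c ^ 3 / v ^ 2 + e0 / (r - v) + 4.3 * e0 / v) ≤
      W v * (r * (0.0871 * c ^ 3)) := by
    have h1 : (r - v) * (e0 / (r - v)) = e0 := by field_simp
    have h2 : (r - v) * (0.2225 * c ^ 3 / v ^ 2) ≤ 0.004 * c ^ 3 := by
      rw [mul_div_assoc', div_le_iff₀ (by positivity)]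
      have h3 : (2.8 : ℝ) ≤ v ^ 2 := by
        norm_num at hv168 ⊢
        nlinarith
      have h4 : (r - v) * (0.2225 * c ^ 3) ≤ 1 / 20 * (0.2225 * c ^ 3) :=
        mul_le_mul_of_nonneg_right (by linarith) (by positivity)
      have h5 : 0.004 * c ^ 3 * 2.8 ≤ 0.004 * c ^ 3 * v ^ 2 :=
        mul_le_mul_of_nonneg_left h3 (by positivity)
      norm_num at h4 h5 ⊢
      linarith
    have h3 : (r - v) * (4.3 * e0 / v) ≤ 0.129 * e0 := by
      rw [mul_div_assoc', div_le_iff₀ hv0]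
      have h4 : (r - v) * (4.3 * e0) ≤ 1 / 20 * (4.3 * e0) :=
        mul_le_mul_of_nonneg_right (by linarith) (by positivity)
      have h5 : 0.129 * e0 * (5 / 3) ≤ 0.129 * e0 * v :=
        mul_le_mul_of_nonneg_left hv53 (by positivity)
      norm_num at h4 h5 ⊢
      linarith
    have h4 := exp_le_c hr3 hc hc1 hcr
    rw [← he0] at h4
    have h5 : (r - v) * (0.2225 * c ^ 3 / v ^ 2 + e0 / (r - v) + 4.3 * e0 / v) ≤
        0.0871 * c ^ 3 := by
      have h6 : (r - v) * (0.2225 * c ^ 3 / v ^ 2 + e0 / (r - v) + 4.3 * e0 / v) =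
          (r - v) * (0.2225 * c ^ 3 / v ^ 2) + (r - v) * (e0 / (r - v)) +
            (r - v) * (4.3 * e0 / v) := by ring
      rw [h6, h1]
      norm_num at h2 h3 h4 ⊢
      linarith
    have h7 := mul_le_mul_of_nonneg_left h5 (by positivity : 0 ≤ W v * r)
    calc Dd * (0.2225 * c ^ 3 / v ^ 2 + e0 / (r - v) + 4.3 * e0 / v) =
        W v * r * ((r - v) * (0.2225 * c ^ 3 / v ^ 2 + e0 / (r - v) + 4.3 * e0 / v)) := by
          rw [hDd]; ring
      _ ≤ W v * r * (0.0871 * c ^ 3) := h7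
      _ = W v * (r * (0.0871 * c ^ 3)) := by ring
  -- the comparison
  have hP : W v * (r * (0.0871 * c ^ 3)) ≤ κ := by
    have hE : W (1 / 2) * Real.exp (-(v + 1 / 2) ^ 2 / 4) =
        W v * Real.exp ((v ^ 2 - v) / 4 - 3 / 16) := by
      unfold W
      rw [← Real.exp_add, ← Real.exp_add]
      ring_nf
    have hE2 : 1.098 ≤ Real.exp ((v ^ 2 - v) / 4 - 3 / 16) := by
      refine le_trans ?_ (Real.add_one_le_exp _)
      norm_num at hv168 ⊢
      nlinarith
    have hpoly : r * 0.0871 ≤ (v * (v - 1 / 2) - 1) * (v - 1 / 2) * (1.098 * 1.07 / 8) := by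
      obtain ⟨t, ht⟩ : ∃ t, t = v - 1.68 := ⟨_, rfl⟩
      have ht0 : 0 ≤ t := by rw [ht]; linarith
      have hvt : v = t + 1.68 := by rw [ht]; ring
      have hrt : r ≤ t + 1.73 := by
        rw [hvt] at hv1
        norm_num at hv1 ⊢
        linarith
      have h1 : (v * (v - 1 / 2) - 1) * (v - 1 / 2) * (1.098 * 1.07 / 8) =
          ((t + 1.68) * (t + 1.18) - 1) * (t + 1.18) * (1.098 * 1.07 / 8) := by
        rw [hvt]
        ring
      rw [h1]
      have h2 : 0 ≤ t ^ 2 := by positivity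
      have h3 : 0 ≤ t ^ 3 := by positivity
      norm_num at hrt ⊢
      nlinarith
    have h1 : κ = W v * (c ^ 3 * (((v * (v - 1 / 2) - 1) * (v - 1 / 2) * (1.07 / 8)) *
        Real.exp ((v ^ 2 - v) / 4 - 3 / 16))) := by
      rw [hκ]
      have h2 : ((v * (v - 1 / 2) - 1) * W (1 / 2)) *
          (c ^ 3 * (v - 1 / 2) * (Real.exp (-(v + 1 / 2) ^ 2 / 4) * 1.07) / 8) =
          (W (1 / 2) * Real.exp (-(v + 1 / 2) ^ 2 / 4)) *
            (c ^ 3 * ((v * (v - 1 / 2) - 1) * (v - 1 / 2) * (1.07 / 8))) := by ring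
      rw [h2, hE]
      ring
    rw [h1]
    apply mul_le_mul_of_nonneg_left _ hWv.le
    have h12 : 0 < v - 1 / 2 := by linarith
    have h2 : ((v * (v - 1 / 2) - 1) * (v - 1 / 2) * (1.07 / 8)) * 1.098 ≤
        ((v * (v - 1 / 2) - 1) * (v - 1 / 2) * (1.07 / 8)) *
          Real.exp ((v ^ 2 - v) / 4 - 3 / 16) :=
      mul_le_mul_of_nonneg_left hE2 (by positivity)
    have h3 : r * 0.0871 ≤ ((v * (v - 1 / 2) - 1) * (v - 1 / 2) * (1.07 / 8)) *
          Real.exp ((v ^ 2 - v) / 4 - 3 / 16) := by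
      refine le_trans ?_ h2
      refine hpoly.trans (le_of_eq ?_)
      ring
    have h4 := mul_le_mul_of_nonneg_left h3 hc3.le
    calc r * (0.0871 * c ^ 3) = c ^ 3 * (r * 0.0871) := by ring
      _ ≤ _ := h4
  linarith

end Pool.Agent.H404.TL3

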